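import Mathlib

/-!
Sequences without `k` collinear points on their graph which stay close to a function with few
inflections have a convergent sum of reciprocals.
-/

namespace Pool.Agent.Results.MP_029ce3_co.Inflections

open Finset

/-- The points `(n, a n)` with index `n` in `T` lie on one straight line of the plane. -/
def OnALine (a : ℕ → ℕ) (T : Finset ℕ) : Prop :=
  Collinear ℝ ((fun n : ℕ => (((n : ℝ), (a n : ℝ)) : ℝ × ℝ)) '' (T : Set ℕ))

/-- if `q * a n - p * n` is constant on `T` and `q ≠ 0`, the points are collinear -/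
lemma onALine_of_const (a : ℕ → ℕ) (T : Finset ℕ) (q p c : ℝ) (hq : q ≠ 0)
    (h : ∀ n ∈ T, q * (a n : ℝ) - p * n = c) : OnALine a T := by
  unfold OnALine
  rw [collinear_iff_exists_forall_eq_smul_vadd]
  refine ⟨(0, c / q), (1, p / q), ?_⟩
  rintro _ ⟨n, hn, rfl⟩
  refine ⟨n, ?_⟩
  have := h n (by simpa using hn)
  simp only [vadd_eq_add, Prod.smul_mk, smul_eq_mul, mul_one, Prod.mk_add_mk, add_zero,
    Prod.mk.injEq, true_and]
  field_simp
  linarith

/-- pigeonhole: integer values of a function on `range (M+1)` in an interval of length `L` -/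
lemma pigeon (v : ℕ → ℤ) (M k : ℕ) (A L : ℝ) (hL : 0 ≤ L)
    (h1 : ∀ t, t ≤ M → A ≤ (v t : ℝ)) (h2 : ∀ t, t ≤ M → (v t : ℝ) ≤ A + L)
    (hk : 1 ≤ k) (hM : ((k : ℝ) - 1) * (L + 1) < (M : ℝ) + 1) :
    ∃ T : Finset ℕ, T ⊆ Finset.range (M + 1) ∧ T.card = k ∧
      ∃ w : ℤ, ∀ t ∈ T, v t = w := by
  classical
  set S : Finset ℤ := Finset.Icc ⌈A⌉ ⌊A + L⌋ with hS
  have hmaps : ∀ t ∈ Finset.range (M + 1), v t ∈ S := by
    intro t ht
    have ht' : t ≤ M := by simpa [Nat.lt_succ_iff] using ht
    rw [hS, Finset.mem_Icc]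
    exact ⟨Int.ceil_le.mpr (h1 t ht'), Int.le_floor.mpr (h2 t ht')⟩
  have hcard : ((S.card : ℕ) : ℝ) ≤ L + 1 := by
    rw [hS, Int.card_Icc]
    have h3 : ((⌊A + L⌋ + 1 - ⌈A⌉ : ℤ) : ℝ) ≤ L + 1 := by
      push_cast
      have := Int.floor_le (A + L)
      have := Int.le_ceil A
      linarith
    rcases le_total 0 (⌊A + L⌋ + 1 - ⌈A⌉) with h4 | h4
    · have : (((⌊A + L⌋ + 1 - ⌈A⌉).toNat : ℕ) : ℝ) = ((⌊A + L⌋ + 1 - ⌈A⌉ : ℤ) : ℝ) := by
        have := Int.toNat_of_nonneg h4
        exact_mod_cast this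
      rw [this]; exact h3
    · rw [Int.toNat_of_nonpos h4]
      simp; linarith
  have hlt : S.card * (k - 1) < (Finset.range (M + 1)).card := by
    rw [Finset.card_range]
    have : ((S.card * (k - 1) : ℕ) : ℝ) < ((M + 1 : ℕ) : ℝ) := by
      push_cast [Nat.cast_sub hk]
      have hk' : (0 : ℝ) ≤ (k : ℝ) - 1 := by
        have : (1 : ℝ) ≤ k := by exact_mod_cast hk
        linarith
      nlinarith
    exact_mod_cast this
  obtain ⟨w, hw, hw2⟩ :=
    Finset.exists_lt_card_fiber_of_mul_lt_card_of_maps_to hmaps hlt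
  have hw3 : k ≤ ({x ∈ Finset.range (M + 1) | v x = w}).card := by omega
  obtain ⟨T, hT1, hT2⟩ := Finset.exists_subset_card_eq hw3
  refine ⟨T, hT1.trans (Finset.filter_subset _ _), hT2, w, ?_⟩
  intro t ht
  have := hT1 ht
  rw [Finset.mem_filter] at this
  exact this.2

/-- The function `f` is convex or concave on the integer interval `[u, v]`: its differences
`f (i + 1) - f i` are monotone, or antitone, there. -/
def ConvexOrConcaveOn (f : ℕ → ℝ) (u v : ℕ) : Prop :=
  (∀ i, u ≤ i → i + 2 ≤ v → f (i + 1) - f i ≤ f (i + 2) - f (i + 1)) ∨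
  (∀ i, u ≤ i → i + 2 ≤ v → f (i + 2) - f (i + 1) ≤ f (i + 1) - f i)

/-- slopes are monotone on `[0, l]` -/
lemma slope_mono (F : ℕ → ℝ) (l : ℕ)
    (hconv : ∀ i, i + 2 ≤ l → F (i + 1) - F i ≤ F (i + 2) - F (i + 1))
    (m n : ℕ) (hmn : m ≤ n) (hn : n + 1 ≤ l) : F (m + 1) - F m ≤ F (n + 1) - F n := by
  induction n, hmn using Nat.le_induction with
  | base => exact le_rfl
  | succ n hmn ih =>
    have := hconv n (by omega)
    have := ih (by omega)
    linarith

/-- The window estimate: if `b` is within `E` of `F` on `[m, m + W]`, `W ≥ 40 k² E`, `F` is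
convex there and no `k` points are collinear, then the slope of `F` grows by `1/(8k²)`. -/
lemma window (k : ℕ) (hk : 1 ≤ k) (b : ℕ → ℤ) (l : ℕ)
    (hno : ¬ ∃ T : Finset ℕ, (∀ n ∈ T, n ≤ l) ∧ T.card = k ∧
      ∃ q p c : ℤ, 0 < q ∧ ∀ n ∈ T, q * b n - p * n = c)
    (F : ℕ → ℝ) (hconv : ∀ i, i + 2 ≤ l → F (i + 1) - F i ≤ F (i + 2) - F (i + 1))
    (E : ℝ) (hE : 1 ≤ E) (happ : ∀ n, n ≤ l → |(b n : ℝ) - F n| ≤ E)
    (m W : ℕ) (hml : m + W + 1 ≤ l) (hW : 40 * (k : ℝ) ^ 2 * E ≤ W) :
    1 / (8 * (k : ℝ) ^ 2) ≤ (F (m + W + 1) - F (m + W)) - (F (m + 1) - F m) := by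
  classical
  by_contra hcon
  rw [not_le] at hcon
  have hk0 : (1 : ℝ) ≤ k := by exact_mod_cast hk
  have hkpos : (0 : ℝ) < k := by linarith
  set s : ℝ := F (m + 1) - F m with hs
  set η : ℝ := 1 / (8 * (k : ℝ) ^ 2) with hη
  have hη0 : 0 < η := by positivity
  have hslope : ∀ i j : ℕ, i ≤ j → j ≤ W →
      F (m + i + 1) - F (m + i) ≤ F (m + j + 1) - F (m + j) := by
    intro i j hij hj
    exact slope_mono F l hconv (m + i) (m + j) (by omega) (by omega)
  have hf1 : ∀ t : ℕ, t ≤ W → F m + s * t ≤ F (m + t) := by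
    intro t
    induction t with
    | zero => intro _; simp
    | succ t ih =>
      intro ht
      have h1 := hslope 0 t (by omega) (by omega)
      have h2 := ih (by omega)
      rw [add_zero] at h1
      have e2 : m + (t + 1) = m + t + 1 := by ring
      rw [e2]
      push_cast
      rw [hs] at *
      nlinarith
  have hf2 : ∀ t : ℕ, t ≤ W → F (m + t) ≤ F m + (s + η) * t := by
    intro t
    induction t with
    | zero => intro _; simp
    | succ t ih =>
      intro ht
      have h1 := hslope t W (by omega) le_rfl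
      have h2 := ih (by omega)
      have e2 : m + (t + 1) = m + t + 1 := by ring
      rw [e2]
      push_cast
      nlinarith
  -- Dirichlet
  obtain ⟨p, q, hq0, hqQ, hdir⟩ :=
    Real.exists_int_int_abs_mul_sub_le s (n := 2 * k) (by omega)
  lift q to ℕ using hq0.le
  have hq0' : 0 < q := by exact_mod_cast hq0
  have hqQ' : q ≤ 2 * k := by exact_mod_cast hqQ
  set M : ℕ := W / q with hM
  have hMq : ∀ t, t ≤ M → q * t ≤ W := by
    intro t ht
    calc q * t ≤ q * (W / q) := Nat.mul_le_mul_left _ ht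
      _ ≤ W := Nat.mul_div_le W q
  have hqpos : (0 : ℝ) < q := by exact_mod_cast hq0'
  have hMle : (M : ℝ) ≤ W / q := by
    rw [hM]; exact Nat.cast_div_le
  have hMgt : (W : ℝ) / q < (M : ℝ) + 1 := by
    rw [div_lt_iff₀ hqpos]
    have h1 : W < q * (W / q + 1) := Nat.lt_mul_div_succ W hq0'
    have h2 : (W : ℝ) < ((q * (M + 1) : ℕ) : ℝ) := by exact_mod_cast h1
    push_cast at h2
    linarith
  set v : ℕ → ℤ := fun t => b (m + q * t) - b m - p * t with hv
  set δ : ℝ := (q : ℝ) * s - p with hδ
  have hδabs : |δ| ≤ 1 / (2 * k + 1) := by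
    have := hdir
    push_cast at this
    exact this
  have hW0 : (0 : ℝ) ≤ W := by positivity
  have hv' : ∀ t, t ≤ M → -(2 * E) ≤ (v t : ℝ) - δ * t ∧ (v t : ℝ) - δ * t ≤ 2 * E + η * W := by
    intro t ht
    have hqt := hMq t ht
    have h1 := hf1 (q * t) hqt
    have h2 := hf2 (q * t) hqt
    have h3 := abs_le.mp (happ (m + q * t) (by omega))
    have h4 := abs_le.mp (happ m (by omega))
    have h5 : ((q * t : ℕ) : ℝ) ≤ W := by exact_mod_cast hqt
    have h6 : η * ((q * t : ℕ) : ℝ) ≤ η * W := mul_le_mul_of_nonneg_left h5 hη0.le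
    simp only [hv, hδ]
    push_cast at h1 h2 h5 h6 ⊢
    constructor
    · nlinarith [h1, h3.1, h4.2]
    · nlinarith [h2, h3.2, h4.1, h6]
  -- the interval
  set D : ℝ := |δ| * M with hD
  have hD0 : 0 ≤ D := by positivity
  have hDle : D ≤ (1 / (2 * k + 1)) * (W / q) := by
    rw [hD]
    exact mul_le_mul hδabs hMle (by positivity) (by positivity)
  set A : ℝ := - (2 * E) + min 0 (δ * M) with hA
  have hmin0 : ∀ t : ℕ, t ≤ M → min 0 (δ * M) ≤ δ * t ∧ δ * t ≤ min 0 (δ * M) + D := by
    intro t ht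
    have ht' : (t : ℝ) ≤ M := by exact_mod_cast ht
    have ht0 : (0 : ℝ) ≤ t := by positivity
    have hM0 : (0 : ℝ) ≤ M := by positivity
    rcases le_total 0 δ with hd | hd
    · have h1 : min 0 (δ * M) = 0 := min_eq_left (by positivity)
      rw [h1, hD, abs_of_nonneg hd]
      constructor <;> nlinarith
    · have h1 : min 0 (δ * M) = δ * M := min_eq_right (by nlinarith)
      rw [h1, hD, abs_of_nonpos hd]
      constructor <;> nlinarith
  have hηW : 0 ≤ η * W := by positivity
  have hp := pigeon v M k A (4 * E + η * W + D) (by positivity) ?_ ?_ hk ?_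
  · obtain ⟨T, hT1, hT2, w, hw⟩ := hp
    apply hno
    refine ⟨T.image (fun t => m + q * t), ?_, ?_, q, p, w * q + q * b m - p * m, ?_, ?_⟩
    · intro n hn
      rw [Finset.mem_image] at hn
      obtain ⟨t, ht, rfl⟩ := hn
      have h1 := hT1 ht
      rw [Finset.mem_range] at h1
      have h2 := hMq t (by omega)
      omega
    · rw [Finset.card_image_of_injective, hT2]
      intro s t hst
      simp only at hst
      have : q * s = q * t := by omega
      exact Nat.eq_of_mul_eq_mul_left hq0' this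
    · exact_mod_cast hq0'
    · intro n hn
      rw [Finset.mem_image] at hn
      obtain ⟨t, ht, rfl⟩ := hn
      have h1 := hw t ht
      simp only [hv] at h1
      push_cast
      have h2 : b (m + q * t) = w + b m + p * t := by linarith
      rw [h2]; ring
  · intro t ht
    have h1 := hv' t ht
    have h2 := hmin0 t ht
    rw [hA]
    linarith [h1.1, h1.2, h2.1, h2.2]
  · intro t ht
    have h1 := hv' t ht
    have h2 := hmin0 t ht
    rw [hA]
    linarith [h1.1, h1.2, h2.1, h2.2]
  · -- the numerical inequality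
    refine lt_of_le_of_lt ?_ hMgt
    have hq2k : (q : ℝ) ≤ 2 * k := by exact_mod_cast hqQ'
    have hk1 : (0 : ℝ) ≤ (k : ℝ) - 1 := by linarith
    have hX : (W : ℝ) / (2 * k) ≤ W / q :=
      div_le_div_of_nonneg_left hW0 hqpos hq2k
    have g1 : ((k : ℝ) - 1) * (4 * E + 1) ≤ (W : ℝ) / (8 * k) := by
      rw [le_div_iff₀ (by positivity)]
      have : ((k : ℝ) - 1) * (4 * E + 1) * (8 * k) ≤ 40 * (k : ℝ) ^ 2 * E := by
        have e1 : ((k : ℝ) - 1) * (4 * E + 1) ≤ k * (5 * E) := by nlinarith
        have e2 := mul_le_mul_of_nonneg_right e1 (by positivity : (0 : ℝ) ≤ 8 * k)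
        nlinarith
      linarith
    have g2 : ((k : ℝ) - 1) * (η * W) ≤ (W : ℝ) / (8 * k) := by
      have e1 : ((k : ℝ) - 1) * (η * W) ≤ k * (η * W) := by nlinarith
      have e2 : (k : ℝ) * (η * W) = W / (8 * k) := by
        rw [hη]; field_simp
      linarith
    have g3 : ((k : ℝ) - 1) * D ≤ (W / q) / 2 := by
      have e1 : ((k : ℝ) - 1) * D ≤ ((k : ℝ) - 1) * ((1 / (2 * k + 1)) * (W / q)) :=
        mul_le_mul_of_nonneg_left hDle hk1
      have e2 : ((k : ℝ) - 1) * (1 / (2 * k + 1)) ≤ 1 / 2 := by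
        rw [mul_one_div, div_le_div_iff₀ (by positivity) (by norm_num)]
        linarith
      have hWq : (0 : ℝ) ≤ W / q := by positivity
      nlinarith [mul_le_mul_of_nonneg_right e2 hWq]
    have g4 : (W : ℝ) / (8 * k) + W / (8 * k) = (W / (2 * k)) / 2 := by
      field_simp; ring
    have : ((k : ℝ) - 1) * (4 * E + η * W + D + 1) =
        ((k : ℝ) - 1) * (4 * E + 1) + ((k : ℝ) - 1) * (η * W) + ((k : ℝ) - 1) * D := by ring
    rw [this]
    linarith

/-- growth over a convex piece -/
lemma piece (k : ℕ) (hk : 1 ≤ k) (b : ℕ → ℤ) (l : ℕ)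
    (hno : ¬ ∃ T : Finset ℕ, (∀ n ∈ T, n ≤ l) ∧ T.card = k ∧
      ∃ q p c : ℤ, 0 < q ∧ ∀ n ∈ T, q * b n - p * n = c)
    (hb : ∀ i, i + 1 ≤ l → b i < b (i + 1))
    (F : ℕ → ℝ) (hconv : ∀ i, i + 2 ≤ l → F (i + 1) - F i ≤ F (i + 2) - F (i + 1))
    (E : ℝ) (hE : 1 ≤ E) (happ : ∀ n, n ≤ l → |(b n : ℝ) - F n| ≤ E)
    (W : ℕ) (hW : 40 * (k : ℝ) ^ 2 * E ≤ W) :
    (1 / (8 * (k : ℝ) ^ 2)) / (2 * W) * ((l : ℝ) ^ 2 - 4 * W * l) - 2 * E ≤
      (b l : ℝ) - b 0 := by
  have hk0 : (1 : ℝ) ≤ k := by exact_mod_cast hk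
  have hkpos : (0 : ℝ) < k := by linarith
  have hWpos' : (0 : ℝ) < W := lt_of_lt_of_le (by positivity) hW
  have hWpos : 0 < W := by exact_mod_cast hWpos'
  have hW2E : 2 * E ≤ W := by
    have : (1 : ℝ) ≤ (k : ℝ) ^ 2 := by nlinarith
    nlinarith
  set η : ℝ := 1 / (8 * (k : ℝ) ^ 2) with hη
  have hη0 : 0 < η := by positivity
  have hbm : ∀ t : ℕ, t ≤ l → (t : ℝ) ≤ (b t : ℝ) - b 0 := by
    intro t
    induction t with
    | zero => intro _; simp
    | succ t ih =>
      intro ht
      have h1 := ih (by omega)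
      have h2 := hb t ht
      have h3 : (b t : ℝ) + 1 ≤ b (t + 1) := by exact_mod_cast h2
      push_cast
      linarith
  rcases Nat.lt_or_ge l W with hlW | hlW
  · -- short piece
    have h1 := hbm l le_rfl
    have h2 : (l : ℝ) < W := by exact_mod_cast hlW
    have h3 : (l : ℝ) ^ 2 - 4 * W * l ≤ 0 := by
      have : (0 : ℝ) ≤ l := by positivity
      nlinarith
    have h4 : η / (2 * W) * ((l : ℝ) ^ 2 - 4 * W * l) ≤ 0 :=
      mul_nonpos_of_nonneg_of_nonpos (by positivity) h3
    have h5 : (0 : ℝ) ≤ l := by positivity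
    linarith
  · -- the first slope
    have hFW : 0 ≤ F W - F 0 := by
      have h1 := hbm W hlW
      have h2 := abs_le.mp (happ W hlW)
      have h3 := abs_le.mp (happ 0 (by omega))
      linarith [h2.1, h2.2, h3.1, h3.2]
    have hbase : 0 ≤ F W - F (W - 1) := by
      by_contra hcon
      rw [not_le] at hcon
      have hall : ∀ t : ℕ, t ≤ W → F t ≤ F 0 + (F W - F (W - 1)) * t := by
        intro t
        induction t with
        | zero => intro _; simp
        | succ t ih =>
          intro ht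
          have h1 := ih (by omega)
          have h2 := slope_mono F l hconv t (W - 1) (by omega) (by omega)
          rw [Nat.sub_add_cancel hWpos] at h2
          push_cast
          linarith
      have h1 := hall W le_rfl
      nlinarith
    -- the slopes grow
    have hgrow : ∀ s : ℕ, W - 1 + s * W + 1 ≤ l →
        s * η ≤ F (W - 1 + s * W + 1) - F (W - 1 + s * W) := by
      intro s
      induction s with
      | zero =>
        intro _
        simp only [zero_mul, add_zero, Nat.cast_zero]
        rw [Nat.sub_add_cancel hWpos]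
        exact hbase
      | succ s ih =>
        intro hs
        have e1 : W - 1 + (s + 1) * W = W - 1 + s * W + W := by ring
        rw [e1] at hs ⊢
        have h1 := ih (by omega)
        have h2 := window k hk b l hno F hconv E hE happ (W - 1 + s * W) W hs hW
        push_cast
        rw [← hη] at h2
        linarith
    have hslope : ∀ n : ℕ, W ≤ n → n + 1 ≤ l →
        η / (2 * W) * (2 * n + 1 - 4 * W) ≤ F (n + 1) - F n := by
      intro n hn hnl
      set s : ℕ := (n + 1 - W) / W with hs
      have h1 : s * W ≤ n + 1 - W := Nat.div_mul_le_self _ _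
      have h2 : n + 1 - W < W * (s + 1) := Nat.lt_mul_div_succ _ hWpos
      have h3 := hgrow s (by omega)
      have h4 := slope_mono F l hconv (W - 1 + s * W) n (by omega) hnl
      have h5 : ((n : ℝ) + 1 - W) < W * (s + 1) := by
        have : n + 1 < W * (s + 1) + W := by omega
        have h6 : ((n + 1 : ℕ) : ℝ) < ((W * (s + 1) + W : ℕ) : ℝ) := by exact_mod_cast this
        push_cast at h6
        linarith
      have h7 : η / (2 * W) * (2 * n + 1 - 4 * W) ≤ s * η := by
        rw [div_mul_eq_mul_div, div_le_iff₀ (by positivity)]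
        nlinarith
      linarith
    have hmain : ∀ n : ℕ, W ≤ n → n ≤ l →
        η / (2 * W) * ((n : ℝ) ^ 2 - 4 * W * n) ≤ F n - F 0 := by
      intro n hn
      induction n, hn using Nat.le_induction with
      | base =>
        intro _
        have : η / (2 * W) * ((W : ℝ) ^ 2 - 4 * W * W) ≤ 0 :=
          mul_nonpos_of_nonneg_of_nonpos (by positivity) (by nlinarith)
        linarith
      | succ n hn ih =>
        intro hnl
        have h1 := ih (by omega)
        have h2 := hslope n hn hnl
        push_cast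
        have e : η / (2 * W) * (((n : ℝ) + 1) ^ 2 - 4 * W * (n + 1)) =
          η / (2 * W) * ((n : ℝ) ^ 2 - 4 * W * n) + η / (2 * W) * (2 * n + 1 - 4 * W) := by ring
        rw [e]
        linarith
    have h1 := hmain l hlW le_rfl
    have h2 := abs_le.mp (happ l le_rfl)
    have h3 := abs_le.mp (happ 0 (by omega))
    linarith [h2.1, h2.2, h3.1, h3.2]

open Classical in
/-- growth of `a` between `u` and `v` in terms of the number of break points between them -/
lemma combine (k : ℕ) (hk : 1 ≤ k) (a : ℕ → ℕ)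
    (hmono : ∀ m n, 1 ≤ m → m < n → a m < a n)
    (hno : ¬ ∃ T : Finset ℕ, (∀ n ∈ T, 1 ≤ n) ∧ T.card = k ∧ OnALine a T)
    (f : ℕ → ℝ) (I : Set ℕ) (x y : ℕ) (hx : 1 ≤ x)
    (hI : ∀ u v, x ≤ u → u ≤ v → (∀ m ∈ I, ¬ (u < m ∧ m < v)) → ConvexOrConcaveOn f u v)
    (E : ℝ) (hE : 1 ≤ E) (happ : ∀ n, x ≤ n → n ≤ y → |(a n : ℝ) - f n| ≤ E)
    (W : ℕ) (hW : 40 * (k : ℝ) ^ 2 * E ≤ W) (lam : ℝ) (N : ℕ) :
    ∀ u v : ℕ, x ≤ u → u ≤ v → v ≤ y → ((Finset.Ioo u v).filter (fun m => m ∈ I)).card = N →
      (1 / (8 * (k : ℝ) ^ 2)) / (2 * W) * (2 * lam - 4 * W) * ((v : ℝ) - u) -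
        ((1 / (8 * (k : ℝ) ^ 2)) / (2 * W) * lam ^ 2 + 2 * E) * (1 + N) ≤
        (a v : ℝ) - a u := by
  have hk0 : (1 : ℝ) ≤ k := by exact_mod_cast hk
  have hkpos : (0 : ℝ) < k := by linarith
  have hWpos' : (0 : ℝ) < W := lt_of_lt_of_le (by positivity) hW
  set κ : ℝ := (1 / (8 * (k : ℝ) ^ 2)) / (2 * W) with hκ
  have hκ0 : 0 < κ := by positivity
  induction N using Nat.strong_induction_on with
  | _ N ih =>
    intro u v hu huv hv hcard
    rcases Nat.eq_zero_or_pos N with h0 | h0
    · subst h0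
      rw [Finset.card_eq_zero] at hcard
      have hfree : ∀ m ∈ I, ¬ (u < m ∧ m < v) := by
        intro m hm hmuv
        have : m ∈ (Finset.Ioo u v).filter (fun m => m ∈ I) := by
          rw [Finset.mem_filter, Finset.mem_Ioo]
          exact ⟨hmuv, hm⟩
        rw [hcard] at this
        simp at this
      have hgoal : κ * (((v - u : ℕ) : ℝ) ^ 2 - 4 * W * ((v - u : ℕ) : ℝ)) - 2 * E ≤
          (a v : ℝ) - a u := by
        rcases hI u v hu huv hfree with hc | hc
        · have h1 := piece k hk (fun i => (a (u + i) : ℤ)) (v - u) ?_ ?_ (fun i => f (u + i)) ?_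
            E hE ?_ W hW
          · have e1 : u + (v - u) = v := by omega
            simp only [e1, add_zero, Int.cast_natCast] at h1
            exact h1
          · rintro ⟨T, hT1, hT2, q, p, c, hq, hT3⟩
            apply hno
            refine ⟨T.image (fun i => u + i), ?_, ?_, ?_⟩
            · intro n hn
              rw [Finset.mem_image] at hn
              obtain ⟨i, hi, rfl⟩ := hn
              omega
            · rw [Finset.card_image_of_injective, hT2]
              intro s t hst
              simp only at hst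
              omega
            · apply onALine_of_const a _ (q : ℝ) (p : ℝ) (c - p * u : ℝ)
              · exact_mod_cast hq.ne'
              · intro n hn
                rw [Finset.mem_image] at hn
                obtain ⟨i, hi, rfl⟩ := hn
                have h1 := hT3 i hi
                have h2 : (q : ℝ) * (a (u + i) : ℝ) - p * i = c := by exact_mod_cast h1
                push_cast
                linarith
          · intro i hi
            have := hmono (u + i) (u + (i + 1)) (by omega) (by omega)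
            exact_mod_cast this
          · intro i hi
            exact hc (u + i) (by omega) (by omega)
          · intro i hi
            have := happ (u + i) (by omega) (by omega)
            simpa using this
        · have h1 := piece k hk (fun i => -(a (v - i) : ℤ)) (v - u) ?_ ?_ (fun i => -f (v - i)) ?_
            E hE ?_ W hW
          · have e1 : v - (v - u) = u := by omega
            simp only [e1, Nat.sub_zero, Int.cast_neg, Int.cast_natCast] at h1
            linarith
          · rintro ⟨T, hT1, hT2, q, p, c, hq, hT3⟩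
            apply hno
            refine ⟨T.image (fun i => v - i), ?_, ?_, ?_⟩
            · intro n hn
              rw [Finset.mem_image] at hn
              obtain ⟨i, hi, rfl⟩ := hn
              have := hT1 i hi
              omega
            · rw [Finset.card_image_of_injOn, hT2]
              intro s hs t ht hst
              have h1 := hT1 s (by simpa using hs)
              have h2 := hT1 t (by simpa using ht)
              simp only at hst
              omega
            · apply onALine_of_const a _ (q : ℝ) (p : ℝ) (-c - p * v : ℝ)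
              · exact_mod_cast hq.ne'
              · intro n hn
                rw [Finset.mem_image] at hn
                obtain ⟨i, hi, rfl⟩ := hn
                have h1 := hT3 i hi
                have h2 : -((q : ℝ) * (a (v - i) : ℝ)) - p * i = c := by
                  have h3 : -(q * (a (v - i) : ℤ)) - p * i = c := by linarith
                  exact_mod_cast h3
                have h4 := hT1 i hi
                rw [Nat.cast_sub (by omega : i ≤ v)]
                linarith
          · intro i hi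
            have := hmono (v - (i + 1)) (v - i) (by omega) (by omega)
            simp only [neg_lt_neg_iff]
            exact_mod_cast this
          · intro i hi
            have h2 := hc (v - (i + 2)) (by omega) (by omega)
            have e1 : v - (i + 2) + 1 = v - (i + 1) := by omega
            have e2 : v - (i + 2) + 2 = v - i := by omega
            rw [e1, e2] at h2
            linarith
          · intro i hi
            have := happ (v - i) (by omega) (by omega)
            simp only [Int.cast_neg, Int.cast_natCast]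
            rw [← abs_neg]
            have e1 : -(-(a (v - i) : ℝ) - -f (v - i)) = (a (v - i) : ℝ) - f (v - i) := by ring
            rw [e1]
            exact this
      have e2 : ((v - u : ℕ) : ℝ) = (v : ℝ) - u := by rw [Nat.cast_sub huv]
      rw [e2] at hgoal
      refine le_trans ?_ hgoal
      have h3 : 0 ≤ κ * (((v : ℝ) - u) - lam) ^ 2 := by positivity
      push_cast
      nlinarith [h3]
    · -- split at a break point
      obtain ⟨m, hm⟩ : ((Finset.Ioo u v).filter (fun m => m ∈ I)).Nonempty := by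
        rw [← Finset.card_pos]; omega
      have hm' := hm
      rw [Finset.mem_filter, Finset.mem_Ioo] at hm'
      obtain ⟨⟨hum, hmv⟩, hmI⟩ := hm'
      set S1 := (Finset.Ioo u m).filter (fun m => m ∈ I) with hS1
      set S2 := (Finset.Ioo m v).filter (fun m => m ∈ I) with hS2
      have hdisj : Disjoint S1 S2 := by
        rw [Finset.disjoint_left]
        intro z hz1 hz2
        rw [hS1, Finset.mem_filter, Finset.mem_Ioo] at hz1
        rw [hS2, Finset.mem_filter, Finset.mem_Ioo] at hz2
        omega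
      have hsub : S1 ∪ S2 ⊆ ((Finset.Ioo u v).filter (fun m => m ∈ I)).erase m := by
        intro z hz
        rw [Finset.mem_union, hS1, hS2, Finset.mem_filter, Finset.mem_filter, Finset.mem_Ioo,
          Finset.mem_Ioo] at hz
        rw [Finset.mem_erase, Finset.mem_filter, Finset.mem_Ioo]
        rcases hz with ⟨⟨h1, h2⟩, h3⟩ | ⟨⟨h1, h2⟩, h3⟩
        · exact ⟨by omega, ⟨by omega, by omega⟩, h3⟩
        · exact ⟨by omega, ⟨by omega, by omega⟩, h3⟩
      have hle := Finset.card_le_card hsub
      rw [Finset.card_union_of_disjoint hdisj, Finset.card_erase_of_mem hm, hcard] at hle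
      have h1 := ih S1.card (by omega) u m hu hum.le (by omega) rfl
      have h2 := ih S2.card (by omega) m v (by omega) hmv.le hv rfl
      have h3 : (S1.card : ℝ) + S2.card + 1 ≤ N := by
        have : S1.card + S2.card + 1 ≤ N := by omega
        exact_mod_cast this
      have hB : 0 ≤ κ * lam ^ 2 + 2 * E := by positivity
      nlinarith [mul_le_mul_of_nonneg_left h3 hB]

open Classical in
/-- the number of break points in the dyadic block `(2 ^ j, 2 ^ (j + 1) - 1)` -/
noncomputable def cnt (I : Set ℕ) (j : ℕ) : ℕ :=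
  ((Finset.Ioo (2 ^ j) (2 ^ (j + 1) - 1)).filter (fun m => m ∈ I)).card

lemma cnt_sum (I : Set ℕ) (e : ℕ → ℝ) (he : ∀ j, 1 ≤ e j)
    (hsum1 : Summable fun j : ℕ => e j / 2 ^ j)
    (hsum2 : Summable (Set.indicator I fun m : ℕ => e (Nat.log 2 m) / m)) :
    Summable fun j : ℕ => e j * (1 + cnt I j) / 2 ^ j := by
  classical
  set h : ℕ → ℝ := Set.indicator I fun m : ℕ => e (Nat.log 2 m) / m with hh
  have hh0 : ∀ m, 0 ≤ h m := by
    intro m
    rw [hh]
    apply Set.indicator_nonneg
    intro z _
    have := he (Nat.log 2 z)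
    positivity
  have hkey : Summable fun j : ℕ => e j * cnt I j / 2 ^ j := by
    have hblock : ∀ j : ℕ, e j * cnt I j / 2 ^ j ≤
        2 * ∑ m ∈ Finset.Ico (2 ^ j) (2 ^ (j + 1)), h m := by
      intro j
      have h1 : ∑ m ∈ (Finset.Ioo (2 ^ j) (2 ^ (j + 1) - 1)).filter (fun m => m ∈ I),
          e j / 2 ^ (j + 1) ≤ ∑ m ∈ Finset.Ico (2 ^ j) (2 ^ (j + 1)), h m := by
        refine le_trans (Finset.sum_le_sum (g := h) ?_) (Finset.sum_le_sum_of_subset_of_nonneg ?_ ?_)
        · intro m hm
          rw [Finset.mem_filter, Finset.mem_Ioo] at hm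
          obtain ⟨⟨hm1, hm2⟩, hmI⟩ := hm
          have hm0 : m ≠ 0 := by omega
          have hlog : Nat.log 2 m = j := by
            rw [Nat.log_eq_iff (Or.inr ⟨by norm_num, hm0⟩)]
            constructor <;> omega
          rw [hh, Set.indicator_of_mem hmI, hlog]
          have hm3 : (m : ℝ) ≤ 2 ^ (j + 1) := by
            have : m ≤ 2 ^ (j + 1) := by omega
            exact_mod_cast this
          have hm4 : (0 : ℝ) < m := by
            have : 0 < m := by omega
            exact_mod_cast this
          have := he j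
          exact div_le_div_of_nonneg_left (by linarith) hm4 hm3
        · intro m hm
          rw [Finset.mem_filter, Finset.mem_Ioo] at hm
          rw [Finset.mem_Ico]
          omega
        · intro m _ _
          exact hh0 m
      rw [Finset.sum_const, nsmul_eq_mul] at h1
      have e1 : e j * cnt I j / 2 ^ j = 2 * ((cnt I j : ℝ) * (e j / 2 ^ (j + 1))) := by
        rw [pow_succ]; field_simp
      rw [e1]
      unfold cnt
      linarith
    refine summable_of_sum_range_le (c := 2 * ∑' m, h m) ?_ ?_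
    · intro j
      have := he j
      positivity
    · intro J
      have h2 : ∑ j ∈ Finset.range J, e j * cnt I j / 2 ^ j ≤
          2 * ∑ m ∈ Finset.range (2 ^ J), h m := by
        induction J with
        | zero =>
          simp only [Finset.range_zero, Finset.sum_empty]
          have := Finset.sum_nonneg (s := Finset.range (2 ^ 0)) (fun m _ => hh0 m)
          linarith
        | succ J ih =>
          rw [Finset.sum_range_succ]
          have h3 := hblock J
          have h4 : ∑ m ∈ Finset.range (2 ^ (J + 1)), h m =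
              ∑ m ∈ Finset.range (2 ^ J), h m + ∑ m ∈ Finset.Ico (2 ^ J) (2 ^ (J + 1)), h m := by
            rw [Finset.range_eq_Ico, Finset.range_eq_Ico]
            rw [Finset.sum_Ico_consecutive h (Nat.zero_le _)
              (Nat.pow_le_pow_right (by norm_num) (by omega))]
          rw [h4]
          linarith
      refine h2.trans ?_
      have h5 := hsum2.sum_le_tsum (Finset.range (2 ^ J)) (fun m _ => hh0 m)
      linarith
  refine (hsum1.add hkey).congr ?_
  intro j
  ring

/-- **Theorem.** Let `1 ≤ a 1 < a 2 < ...` be integers with no `k` collinear points on the graph.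
Suppose that `a n` is within `e (log₂ n)` of a function `f` which is convex or concave between
consecutive break points (elements of `I`), that `∑ e j / 2 ^ j` converges and that
`∑ e (log₂ m) / m` over the break points `m` converges. Then `∑ 1 / a n` converges. -/
theorem result (k : ℕ) (hk : 1 ≤ k) (a : ℕ → ℕ) (hpos : ∀ n, 1 ≤ n → 1 ≤ a n)
    (hmono : ∀ m n, 1 ≤ m → m < n → a m < a n)
    (hno : ¬ ∃ T : Finset ℕ, (∀ n ∈ T, 1 ≤ n) ∧ T.card = k ∧ OnALine a T)
    (f : ℕ → ℝ) (I : Set ℕ) (N0 : ℕ)
    (hI : ∀ u v, N0 ≤ u → u ≤ v → (∀ m ∈ I, ¬ (u < m ∧ m < v)) → ConvexOrConcaveOn f u v)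
    (e : ℕ → ℝ) (he : ∀ j, 1 ≤ e j)
    (happ : ∀ n, N0 ≤ n → |(a n : ℝ) - f n| ≤ e (Nat.log 2 n))
    (hsum1 : Summable fun j : ℕ => e j / 2 ^ j)
    (hsum2 : Summable (Set.indicator I fun m : ℕ => e (Nat.log 2 m) / m)) :
    Summable fun n : ℕ => 1 / (a n : ℝ) := by
  classical
  have hk0 : (1 : ℝ) ≤ k := by exact_mod_cast hk
  have hkpos : (0 : ℝ) < k := by linarith
  have hS := cnt_sum I e he hsum1 hsum2
  -- monotonicity of the terms
  have hanti : ∀ ⦃m n : ℕ⦄, 0 < m → m ≤ n → 1 / (a n : ℝ) ≤ 1 / (a m : ℝ) := by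
    intro m n hm hmn
    have h1 : 1 ≤ a m := hpos m hm
    have h2 : a m ≤ a n := by
      rcases Nat.eq_or_lt_of_le hmn with h | h
      · rw [h]
      · exact (hmono m n hm h).le
    have h3 : (1 : ℝ) ≤ a m := by exact_mod_cast h1
    have h4 : (a m : ℝ) ≤ a n := by exact_mod_cast h2
    exact one_div_le_one_div_of_le (by linarith) h4
  rw [← summable_condensed_iff_of_nonneg (fun n => by positivity) hanti,
    ← summable_nat_add_iff 1]
  -- the terms are eventually small
  have hsmall : ∀ᶠ j : ℕ in Filter.atTop,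
      e j * (1 + cnt I j) / 2 ^ j < 1 / (656 * (k : ℝ) ^ 2) :=
    hS.tendsto_atTop_zero.eventually_lt_const (by positivity)
  refine Summable.of_norm_bounded_eventually_nat (hS.mul_left (5248 * (k : ℝ) ^ 4)) ?_
  filter_upwards [hsmall, Filter.eventually_ge_atTop (N0 + 3)] with j hj1 hj2
  have hjN : N0 ≤ 2 ^ j := by
    have := (Nat.lt_two_pow_self (n := j)).le
    omega
  have h8 : 8 ≤ 2 ^ j := by
    calc 8 = 2 ^ 3 := by norm_num
      _ ≤ 2 ^ j := Nat.pow_le_pow_right (by norm_num) (by omega)
  have h8' : (8 : ℝ) ≤ 2 ^ j := by exact_mod_cast h8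
  set E : ℝ := e j with hE
  have hE1 : 1 ≤ E := he j
  set t : ℝ := (cnt I j : ℝ) with ht
  have ht0 : 0 ≤ t := by positivity
  set W : ℕ := ⌈40 * (k : ℝ) ^ 2 * E⌉₊ with hW
  have hW1 : 40 * (k : ℝ) ^ 2 * E ≤ W := Nat.le_ceil _
  have hk2 : (1 : ℝ) ≤ (k : ℝ) ^ 2 := by nlinarith
  have hW2 : (W : ℝ) ≤ 41 * (k : ℝ) ^ 2 * E := by
    have h1 : (W : ℝ) < 40 * (k : ℝ) ^ 2 * E + 1 := Nat.ceil_lt_add_one (by positivity)
    nlinarith
  have hWpos : (0 : ℝ) < W := lt_of_lt_of_le (by positivity) hW1
  set lam : ℝ := 2 ^ j / (1 + t) with hlam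
  have hlampos : 0 < lam := by positivity
  have hlamt : lam * (1 + t) = 2 ^ j := by rw [hlam]; field_simp
  have hlambig : 656 * (k : ℝ) ^ 2 * E < lam := by
    rw [hlam, lt_div_iff₀ (by positivity)]
    rw [div_lt_div_iff₀ (by positivity) (by positivity)] at hj1
    linarith
  set κ : ℝ := (1 / (8 * (k : ℝ) ^ 2)) / (2 * W) with hκ
  have hκ0 : 0 < κ := by positivity
  have hκlow : 1 / (656 * (k : ℝ) ^ 4 * E) ≤ κ := by
    rw [hκ, div_div]
    apply one_div_le_one_div_of_le (by positivity)
    nlinarith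
  have hc := combine k hk a hmono hno f I (2 ^ j) (2 ^ (j + 1) - 1) (by omega)
    (fun u v hu => hI u v (by omega)) E hE1 ?_ W hW1 lam (cnt I j) (2 ^ j) (2 ^ (j + 1) - 1)
    le_rfl (by rw [pow_succ]; omega) le_rfl rfl
  · have hy : ((2 ^ (j + 1) - 1 : ℕ) : ℝ) = 2 * 2 ^ j - 1 := by
      rw [Nat.cast_sub Nat.one_le_two_pow, pow_succ]
      push_cast
      ring
    rw [hy, ← hκ, ← ht] at hc
    push_cast at hc
    have hmono2 : (a (2 ^ (j + 1) - 1) : ℝ) ≤ a (2 ^ (j + 1)) := by
      have := hmono (2 ^ (j + 1) - 1) (2 ^ (j + 1)) (by rw [pow_succ]; omega)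
        (by have : 1 ≤ 2 ^ (j + 1) := Nat.one_le_two_pow
            omega)
      exact_mod_cast this.le
    have ha0 : (0 : ℝ) ≤ a (2 ^ j) := by positivity
    -- the three error terms
    have hX : (0 : ℝ) < 2 ^ j := by positivity
    have t1 : 16 * (W : ℝ) ≤ lam := by nlinarith
    have t1' : κ * (4 * W * 2 ^ j) ≤ κ * (lam * 2 ^ j) / 4 := by
      have : κ * (16 * W * 2 ^ j) ≤ κ * (lam * 2 ^ j) := by
        apply mul_le_mul_of_nonneg_left _ hκ0.le
        exact mul_le_mul_of_nonneg_right t1 hX.le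
      linarith
    have t2 : κ * (2 * lam) ≤ κ * (lam * 2 ^ j) / 4 := by
      have : κ * (lam * 8) ≤ κ * (lam * 2 ^ j) := by
        apply mul_le_mul_of_nonneg_left _ hκ0.le
        exact mul_le_mul_of_nonneg_left h8' hlampos.le
      linarith
    have t3 : 2 * E * (1 + t) ≤ κ * (lam * 2 ^ j) / 4 := by
      have h1 : 8 * E ≤ κ * lam ^ 2 := by
        have h2 : 1 / (656 * (k : ℝ) ^ 4 * E) * lam ^ 2 ≤ κ * lam ^ 2 :=
          mul_le_mul_of_nonneg_right hκlow (by positivity)
        refine le_trans ?_ h2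
        rw [one_div_mul_eq_div, le_div_iff₀ (by positivity)]
        have h3 : (656 * (k : ℝ) ^ 2 * E) ^ 2 ≤ lam ^ 2 :=
          pow_le_pow_left₀ (by positivity) hlambig.le 2
        nlinarith [h3, (by positivity : (0 : ℝ) ≤ (k : ℝ) ^ 4 * E ^ 2)]
      have h4 : 8 * E * (1 + t) ≤ κ * lam ^ 2 * (1 + t) :=
        mul_le_mul_of_nonneg_right h1 (by positivity)
      have h5 : κ * lam ^ 2 * (1 + t) = κ * (lam * 2 ^ j) := by
        rw [← hlamt]; ring
      rw [h5] at h4
      linarith
    have hbig : κ * (lam * 2 ^ j) / 4 ≤ a (2 ^ (j + 1)) := by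
      have h6 : κ * (2 * lam - 4 * W) * (2 * 2 ^ j - 1 - 2 ^ j) -
          (κ * lam ^ 2 + 2 * E) * (1 + t) =
          κ * (lam * 2 ^ j) + κ * lam * (2 ^ j - lam * (1 + t)) - κ * (4 * W * 2 ^ j)
          - κ * (2 * lam) + κ * (4 * W) - 2 * E * (1 + t) := by ring
      rw [h6, hlamt] at hc
      have h7 : 0 ≤ κ * (4 * W) := by positivity
      have h9 : κ * lam * ((2 : ℝ) ^ j - 2 ^ j) = 0 := by ring
      rw [h9] at hc
      linarith
    have hbig2 : 1 / (656 * (k : ℝ) ^ 4 * E) * (lam * 2 ^ j) / 4 ≤ a (2 ^ (j + 1)) := by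
      refine le_trans ?_ hbig
      have : 1 / (656 * (k : ℝ) ^ 4 * E) * (lam * 2 ^ j) ≤ κ * (lam * 2 ^ j) :=
        mul_le_mul_of_nonneg_right hκlow (by positivity)
      linarith
    have hpos2 : (0 : ℝ) < 1 / (656 * (k : ℝ) ^ 4 * E) * (lam * 2 ^ j) / 4 := by positivity
    have hapos : (0 : ℝ) < a (2 ^ (j + 1)) := lt_of_lt_of_le hpos2 hbig2
    rw [Real.norm_eq_abs, abs_of_nonneg (by positivity), mul_one_div,
      div_le_iff₀ hapos]
    have h10 : 5248 * (k : ℝ) ^ 4 * (E * (1 + t) / 2 ^ j) *
        (1 / (656 * (k : ℝ) ^ 4 * E) * (lam * 2 ^ j) / 4) = 2 * (lam * (1 + t)) := by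
      field_simp
      ring
    have h11 : 5248 * (k : ℝ) ^ 4 * (E * (1 + t) / 2 ^ j) *
        (1 / (656 * (k : ℝ) ^ 4 * E) * (lam * 2 ^ j) / 4) ≤
        5248 * (k : ℝ) ^ 4 * (E * (1 + t) / 2 ^ j) * a (2 ^ (j + 1)) :=
      mul_le_mul_of_nonneg_left hbig2 (by positivity)
    rw [h10, hlamt] at h11
    rw [pow_succ]
    linarith
  · intro n hn1 hn2
    have h1 := happ n (by omega)
    have hlog : Nat.log 2 n = j := by
      rw [Nat.log_eq_iff (Or.inr ⟨by norm_num, by omega⟩)]
      constructor
      · exact hn1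
      · have : 1 ≤ 2 ^ (j + 1) := Nat.one_le_two_pow
        omega
    rw [hlog] at h1
    exact h1

end Pool.Agent.Results.MP_029ce3_co.Inflections
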