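import Mathlib

/-!
Sequences without `k` collinear points on their graph grow at least like `n log n`
in every window, so the partial sums of their reciprocals are `O(log log N)`.
-/

namespace Pool.Agent.Results.MP_029ce3_co.LogGrowth

open Finset

/-- The points `(n, a n)` with index `n` in `T` lie on one straight line of the plane. -/
def OnALine (a : ℕ → ℕ) (T : Finset ℕ) : Prop :=
  Collinear ℝ ((fun n : ℕ => (((n : ℝ), (a n : ℝ)) : ℝ × ℝ)) '' (T : Set ℕ))

/-- if `q * a n - p * n` is constant on `T` and `q ≠ 0`, the points are collinear -/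
lemma onALine_of_const (a : ℕ → ℕ) (T : Finset ℕ) (q p c : ℝ) (hq : q ≠ 0)
    (h : ∀ n ∈ T, q * (a n : ℝ) - p * n = c) : OnALine a T := by
  unfold OnALine
  rw [collinear_iff_exists_forall_eq_smul_vadd]
  refine ⟨(0, c / q), (1, p / q), ?_⟩
  rintro _ ⟨n, hn, rfl⟩
  refine ⟨n, ?_⟩
  have := h n (by simpa using hn)
  simp only [vadd_eq_add, Prod.smul_mk, smul_eq_mul, mul_one, Prod.mk_add_mk, add_zero,
    Prod.mk.injEq, true_and]
  field_simp
  linarith

/-- pigeonhole: integer values of a function on `range (M+1)` in an interval of length `L` -/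
lemma pigeon (v : ℕ → ℤ) (M k : ℕ) (A L : ℝ) (hL : 0 ≤ L)
    (h1 : ∀ t, t ≤ M → A ≤ (v t : ℝ)) (h2 : ∀ t, t ≤ M → (v t : ℝ) ≤ A + L)
    (hk : 1 ≤ k) (hM : ((k : ℝ) - 1) * (L + 1) < (M : ℝ) + 1) :
    ∃ T : Finset ℕ, T ⊆ Finset.range (M + 1) ∧ T.card = k ∧
      ∃ w : ℤ, ∀ t ∈ T, v t = w := by
  classical
  set S : Finset ℤ := Finset.Icc ⌈A⌉ ⌊A + L⌋ with hS
  have hmaps : ∀ t ∈ Finset.range (M + 1), v t ∈ S := by
    intro t ht
    have ht' : t ≤ M := by simpa [Nat.lt_succ_iff] using ht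
    rw [hS, Finset.mem_Icc]
    exact ⟨Int.ceil_le.mpr (h1 t ht'), Int.le_floor.mpr (h2 t ht')⟩
  have hcard : ((S.card : ℕ) : ℝ) ≤ L + 1 := by
    rw [hS, Int.card_Icc]
    have h3 : ((⌊A + L⌋ + 1 - ⌈A⌉ : ℤ) : ℝ) ≤ L + 1 := by
      push_cast
      have := Int.floor_le (A + L)
      have := Int.le_ceil A
      linarith
    rcases le_total 0 (⌊A + L⌋ + 1 - ⌈A⌉) with h4 | h4
    · have : (((⌊A + L⌋ + 1 - ⌈A⌉).toNat : ℕ) : ℝ) = ((⌊A + L⌋ + 1 - ⌈A⌉ : ℤ) : ℝ) := by
        have := Int.toNat_of_nonneg h4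
        exact_mod_cast this
      rw [this]; exact h3
    · rw [Int.toNat_of_nonpos h4]
      simp; linarith
  have hlt : S.card * (k - 1) < (Finset.range (M + 1)).card := by
    rw [Finset.card_range]
    have : ((S.card * (k - 1) : ℕ) : ℝ) < ((M + 1 : ℕ) : ℝ) := by
      push_cast [Nat.cast_sub hk]
      have hk' : (0 : ℝ) ≤ (k : ℝ) - 1 := by
        have : (1 : ℝ) ≤ k := by exact_mod_cast hk
        linarith
      nlinarith
    exact_mod_cast this
  obtain ⟨w, hw, hw2⟩ :=
    Finset.exists_lt_card_fiber_of_mul_lt_card_of_maps_to hmaps hlt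
  have hw3 : k ≤ ({x ∈ Finset.range (M + 1) | v x = w}).card := by omega
  obtain ⟨T, hT1, hT2⟩ := Finset.exists_subset_card_eq hw3
  refine ⟨T, hT1.trans (Finset.filter_subset _ _), hT2, w, ?_⟩
  intro t ht
  have := hT1 ht
  rw [Finset.mem_filter] at this
  exact this.2

/-- `t * log (r / t) ≤ r` -/
lemma mul_log_div_le (r t : ℝ) (hr : 0 < r) (ht : 0 < t) : t * Real.log (r / t) ≤ r := by
  have h : Real.log (r / t) ≤ r / t - 1 := Real.log_le_sub_one_of_pos (by positivity)
  have h2 : t * Real.log (r / t) ≤ t * (r / t - 1) := mul_le_mul_of_nonneg_left h ht.le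
  have h3 : t * (r / t - 1) = r - t := by field_simp
  linarith

/-- The numerical inequality used at the end of the pigeonhole argument. -/
lemma numeric (k q r E : ℝ) (hk0 : 1 ≤ k) (hqpos : 0 < q) (hq2k : q ≤ 2 * k) (hrpos : 0 < r)
    (hrbig : 32 * k ^ 4 < r) (hEle : E ≤ (1 / (2 * k + 1)) * (r / q)) :
    (k - 1) * (2 * (1 / (8 * k ^ 2) * r) + E + 1) ≤ r / q := by
  have hkpos : 0 < k := by linarith
  have hk1 : 0 ≤ k - 1 := by linarith
  have hrq : 0 < r / q := by positivity
  have e1 : 1 / (8 * k ^ 2) * r ≤ (r / q) * (1 / (4 * k)) := by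
    rw [div_mul_div_comm, div_mul_eq_mul_div, one_mul, mul_one,
      div_le_div_iff₀ (by positivity) (by positivity)]
    have h := mul_le_mul_of_nonneg_left hq2k (by positivity : 0 ≤ 4 * k * r)
    linarith [h]
  have e2 : 1 ≤ (r / q) * (1 / (16 * k ^ 3)) := by
    rw [div_mul_div_comm, mul_one, le_div_iff₀ (by positivity)]
    have h := mul_le_mul_of_nonneg_right hq2k (by positivity : 0 ≤ 16 * k ^ 3)
    linarith [h]
  have e3 : (2 * (1 / (8 * k ^ 2) * r) + E + 1) ≤
      (r / q) * (1 / (2 * k) + 1 / (2 * k + 1) + 1 / (16 * k ^ 3)) := by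
    have : (r / q) * (1 / (2 * k)) = 2 * ((r / q) * (1 / (4 * k))) := by
      field_simp; ring
    rw [mul_add, mul_add, this]
    linarith
  have f1 : 1 / (2 * k + 1) ≤ 1 / (2 * k) :=
    one_div_le_one_div_of_le (by positivity) (by linarith)
  have f2 : 1 / (16 * k ^ 3) ≤ 1 / k ^ 2 := by
    apply one_div_le_one_div_of_le (by positivity)
    have : k ^ 2 * 1 ≤ k ^ 2 * (16 * k) :=
      mul_le_mul_of_nonneg_left (by linarith) (by positivity)
    linarith
  have f3 : (k - 1) * (1 / (2 * k) + 1 / (2 * k) + 1 / k ^ 2) ≤ 1 := by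
    have : (k - 1) * (1 / (2 * k) + 1 / (2 * k) + 1 / k ^ 2) = (k - 1) * (k + 1) / k ^ 2 := by
      field_simp; ring
    rw [this, div_le_one (by positivity)]
    nlinarith
  have e4 : (k - 1) * (1 / (2 * k) + 1 / (2 * k + 1) + 1 / (16 * k ^ 3)) ≤ 1 := by
    refine le_trans ?_ f3
    apply mul_le_mul_of_nonneg_left _ hk1
    linarith
  calc (k - 1) * (2 * (1 / (8 * k ^ 2) * r) + E + 1)
      ≤ (k - 1) * ((r / q) * (1 / (2 * k) + 1 / (2 * k + 1) + 1 / (16 * k ^ 3))) :=
        mul_le_mul_of_nonneg_left e3 hk1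
    _ = (r / q) * ((k - 1) * (1 / (2 * k) + 1 / (2 * k + 1) + 1 / (16 * k ^ 3))) := by ring
    _ ≤ (r / q) * 1 := mul_le_mul_of_nonneg_left e4 hrq.le
    _ = r / q := mul_one _

/-- The main finite statement, for integer sequences indexed from `0`. -/
lemma core (b : ℕ → ℤ) (N k : ℕ) (hN : 1 ≤ N) (hk : 1 ≤ k)
    (hb : ∀ i j, i < j → j ≤ N → b i < b j)
    (hslope : 8 * (k : ℝ) ^ 2 * ((b N : ℝ) - b 0) < N * Real.log N) :
    ∃ T : Finset ℕ, T ⊆ Finset.Icc 0 N ∧ T.card = k ∧
      ∃ q p c : ℤ, 0 < q ∧ ∀ n ∈ T, q * b n - p * n = c := by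
  classical
  have hk0 : (1 : ℝ) ≤ k := by exact_mod_cast hk
  have hkpos : (0 : ℝ) < k := by linarith
  set c1 : ℝ := 1 / (8 * (k : ℝ) ^ 2) with hc1
  have hc1pos : 0 < c1 := by positivity
  -- the windows
  set W : Finset (ℕ × ℕ) :=
    ((Finset.Icc 0 N) ×ˢ (Finset.Icc 1 N)).filter (fun w => w.1 + w.2 ≤ N) with hW
  have hWmem : ∀ x r, ((x, r) ∈ W ↔ 1 ≤ r ∧ x + r ≤ N) := by
    intro x r
    rw [hW]
    simp only [Finset.mem_filter, Finset.mem_product, Finset.mem_Icc]
    constructor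
    · rintro ⟨⟨_, h⟩, h'⟩; exact ⟨h.1, h'⟩
    · rintro ⟨h, h'⟩; refine ⟨⟨⟨?_, ?_⟩, ?_, ?_⟩, h'⟩ <;> omega
  have hWne : W.Nonempty := ⟨(0, N), (hWmem 0 N).mpr ⟨hN, by omega⟩⟩
  set φ : ℕ × ℕ → ℝ := fun w => ((b (w.1 + w.2) : ℝ) - b w.1) / w.2 - c1 * Real.log w.2 with hφ
  obtain ⟨⟨x, r⟩, hxr, hmin⟩ := Finset.exists_min_image W φ hWne
  obtain ⟨hr1, hxrN⟩ := (hWmem x r).mp hxr
  have hrpos : (0 : ℝ) < r := by exact_mod_cast hr1
  have hNpos : (0 : ℝ) < N := by exact_mod_cast hN
  -- the value at the whole window is negative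
  have hneg : φ (0, N) < 0 := by
    simp only [hφ, zero_add]
    have h1 : ((b N : ℝ) - b 0) < c1 * (N * Real.log N) := by
      rw [hc1, one_div, lt_inv_mul_iff₀ (by positivity)]
      exact hslope
    rw [sub_neg, div_lt_iff₀ hNpos]
    linarith
  have hφneg : φ (x, r) < 0 := lt_of_le_of_lt (hmin (0, N) ((hWmem 0 N).mpr ⟨hN, by omega⟩)) hneg
  set α : ℝ := ((b (x + r) : ℝ) - b x) / r with hα
  have hαlt : α < c1 * Real.log r := by
    have : φ (x, r) = α - c1 * Real.log r := rfl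
    linarith
  -- slope at least one
  have hmono : ∀ i j, i ≤ j → j ≤ N → (j : ℤ) - i ≤ b j - b i := by
    intro i j hij
    induction j, hij using Nat.le_induction with
    | base => intro _; simp
    | succ j hij ih =>
      intro hj
      have h1 := ih (by omega)
      have h2 := hb j (j + 1) (by omega) hj
      push_cast
      omega
  have hα1 : 1 ≤ α := by
    rw [hα, le_div_iff₀ hrpos, one_mul]
    have := hmono x (x + r) (by omega) hxrN
    have h2 : (((x + r : ℕ) : ℤ) - (x : ℤ) : ℤ) = (r : ℤ) := by push_cast; ring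
    rw [h2] at this
    exact_mod_cast this
  have hlogr : 8 * (k : ℝ) ^ 2 < Real.log r := by
    have h1 : 1 < c1 * Real.log r := by linarith
    rw [hc1, one_div, lt_inv_mul_iff₀ (by positivity)] at h1
    linarith
  have hrbig : 32 * (k : ℝ) ^ 4 < r := by
    have h1 : Real.exp (8 * (k : ℝ) ^ 2) < r := (Real.lt_log_iff_exp_lt hrpos).mp hlogr
    have h2 := Real.quadratic_le_exp_of_nonneg (x := 8 * (k : ℝ) ^ 2) (by positivity)
    nlinarith [sq_nonneg (k : ℝ)]
  -- slopes of subwindows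
  have hsub : ∀ y s : ℕ, 1 ≤ s → x ≤ y → y + s ≤ x + r →
      (α * s - c1 * r : ℝ) ≤ (b (y + s) : ℝ) - b y := by
    intro y s hs hy hys
    have h1 := hmin (y, s) ((hWmem y s).mpr ⟨hs, by omega⟩)
    have hspos : (0 : ℝ) < s := by exact_mod_cast hs
    simp only [hφ] at h1
    have h2 : α - c1 * (Real.log r - Real.log s) ≤ ((b (y + s) : ℝ) - b y) / s := by
      have h3 : ((b (x + r) : ℝ) - b x) / r = α := rfl
      rw [h3] at h1
      linarith
    rw [le_div_iff₀ hspos] at h2
    have h4 := mul_log_div_le r s hrpos hspos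
    rw [Real.log_div hrpos.ne' hspos.ne'] at h4
    nlinarith
  have hr_eq : (b (x + r) : ℝ) - b x = α * r := by
    rw [hα]; field_simp
  have hlow : ∀ t : ℕ, t ≤ r → (α * t - c1 * r : ℝ) ≤ (b (x + t) : ℝ) - b x := by
    intro t ht
    rcases Nat.eq_zero_or_pos t with h0 | h0
    · subst h0
      have : 0 ≤ c1 * r := by positivity
      simp; linarith
    · exact hsub x t h0 le_rfl (by omega)
  have hupp : ∀ t : ℕ, t ≤ r → (b (x + t) : ℝ) - b x ≤ (α * t + c1 * r : ℝ) := by
    intro t ht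
    rcases Nat.eq_or_lt_of_le ht with h0 | h0
    · subst h0
      have : 0 ≤ c1 * t := by positivity
      linarith
    · have h1 := hsub (x + t) (r - t) (by omega) (by omega) (by omega)
      have h2 : x + t + (r - t) = x + r := by omega
      rw [h2, Nat.cast_sub ht] at h1
      linarith
  -- Dirichlet
  obtain ⟨p, q, hq0, hqQ, hdir⟩ :=
    Real.exists_int_int_abs_mul_sub_le α (n := 2 * k) (by omega)
  lift q to ℕ using hq0.le
  have hq0' : 0 < q := by exact_mod_cast hq0
  have hqQ' : q ≤ 2 * k := by exact_mod_cast hqQ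
  set M : ℕ := r / q with hM
  have hMq : ∀ t, t ≤ M → q * t ≤ r := by
    intro t ht
    calc q * t ≤ q * (r / q) := Nat.mul_le_mul_left _ ht
      _ ≤ r := Nat.mul_div_le r q
  have hqpos : (0 : ℝ) < q := by exact_mod_cast hq0'
  have hMle : (M : ℝ) ≤ r / q := by
    rw [hM]; exact Nat.cast_div_le
  have hMgt : (r : ℝ) / q < (M : ℝ) + 1 := by
    rw [div_lt_iff₀ hqpos]
    have h1 : r < q * (r / q + 1) := Nat.lt_mul_div_succ r hq0'
    have h2 : (r : ℝ) < ((q * (M + 1) : ℕ) : ℝ) := by exact_mod_cast h1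
    push_cast at h2
    linarith
  set v : ℕ → ℤ := fun t => b (x + q * t) - b x - p * t with hv
  set δ : ℝ := (q : ℝ) * α - p with hδ
  have hδabs : |δ| ≤ 1 / (2 * k + 1) := by
    have := hdir
    push_cast at this
    exact this
  have hv' : ∀ t, t ≤ M → |(v t : ℝ) - δ * t| ≤ c1 * r := by
    intro t ht
    have h1 := hlow (q * t) (hMq t ht)
    have h2 := hupp (q * t) (hMq t ht)
    rw [abs_le]
    simp only [hv, hδ]
    push_cast at h1 h2 ⊢
    constructor <;> nlinarith
  -- the interval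
  set E : ℝ := |δ| * M with hE
  have hE0 : 0 ≤ E := by positivity
  have hEle : E ≤ (1 / (2 * k + 1)) * (r / q) := by
    rw [hE]
    exact mul_le_mul hδabs hMle (by positivity) (by positivity)
  set A : ℝ := - (c1 * r) + min 0 (δ * M) with hA
  have hmin0 : ∀ t : ℕ, t ≤ M → min 0 (δ * M) ≤ δ * t ∧ δ * t ≤ min 0 (δ * M) + E := by
    intro t ht
    have ht' : (t : ℝ) ≤ M := by exact_mod_cast ht
    have ht0 : (0 : ℝ) ≤ t := by positivity
    have hM0 : (0 : ℝ) ≤ M := by positivity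
    rcases le_total 0 δ with hd | hd
    · have h1 : min 0 (δ * M) = 0 := min_eq_left (by positivity)
      rw [h1, hE, abs_of_nonneg hd]
      constructor <;> nlinarith
    · have h1 : min 0 (δ * M) = δ * M := min_eq_right (by nlinarith)
      rw [h1, hE, abs_of_nonpos hd]
      constructor <;> nlinarith
  have hp := pigeon v M k A (2 * (c1 * r) + E) (by positivity) ?_ ?_ hk ?_
  · obtain ⟨T, hT1, hT2, w, hw⟩ := hp
    refine ⟨T.image (fun t => x + q * t), ?_, ?_, q, p, w * q + q * b x - p * x, ?_, ?_⟩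
    · intro n hn
      rw [Finset.mem_image] at hn
      obtain ⟨t, ht, rfl⟩ := hn
      have h1 := hT1 ht
      rw [Finset.mem_range] at h1
      have h2 := hMq t (by omega)
      rw [Finset.mem_Icc]
      constructor <;> omega
    · rw [Finset.card_image_of_injective, hT2]
      intro s t hst
      simp only at hst
      have : q * s = q * t := by omega
      exact Nat.eq_of_mul_eq_mul_left hq0' this
    · exact_mod_cast hq0'
    · intro n hn
      rw [Finset.mem_image] at hn
      obtain ⟨t, ht, rfl⟩ := hn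
      have h1 := hw t ht
      simp only [hv] at h1
      push_cast
      have h2 : b (x + q * t) = w + b x + p * t := by linarith
      rw [h2]; ring
  · intro t ht
    have h1 := abs_le.mp (hv' t ht)
    have h2 := hmin0 t ht
    rw [hA]
    linarith [h1.1, h1.2, h2.1, h2.2]
  · intro t ht
    have h1 := abs_le.mp (hv' t ht)
    have h2 := hmin0 t ht
    rw [hA]
    linarith [h1.1, h1.2, h2.1, h2.2]
  · -- the numerical inequality
    refine lt_of_le_of_lt ?_ hMgt
    have hq2k : (q : ℝ) ≤ 2 * k := by exact_mod_cast hqQ'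
    exact numeric k q r E hk0 hqpos hq2k hrpos hrbig hEle

/-- `log log` grows at least like the sum of `1 / (n log n)`. -/
lemma loglog_step (x : ℝ) (hx : 2 ≤ x) :
    1 / ((x + 1) * Real.log (x + 1)) ≤ Real.log (Real.log (x + 1)) - Real.log (Real.log x) := by
  have hlx : 0 < Real.log x := Real.log_pos (by linarith)
  have hly : 0 < Real.log (x + 1) := Real.log_pos (by linarith)
  have h1 : 1 - Real.log x / Real.log (x + 1) ≤
      Real.log (Real.log (x + 1)) - Real.log (Real.log x) := by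
    rw [← Real.log_div hly.ne' hlx.ne']
    have := Real.one_sub_inv_le_log_of_pos (div_pos hly hlx)
    rwa [inv_div] at this
  have h2 : 1 / (x + 1) ≤ Real.log (x + 1) - Real.log x := by
    rw [← Real.log_div (by linarith) (by linarith)]
    have := Real.one_sub_inv_le_log_of_pos (x := (x + 1) / x) (by positivity)
    rw [inv_div] at this
    have h3 : 1 - x / (x + 1) = 1 / (x + 1) := by field_simp; ring
    linarith
  refine le_trans ?_ h1
  rw [one_sub_div hly.ne', div_le_div_iff₀ (by positivity) hly]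
  have h4 : 1 ≤ (Real.log (x + 1) - Real.log x) * (x + 1) := by
    rw [div_le_iff₀ (by linarith)] at h2
    exact h2
  nlinarith

/-- **Theorem.** Let `1 ≤ a 1 < a 2 < ...` be integers and `k ≥ 1`.
(1) If in some window `m < n` one has `8 k² (a n - a m) < (n - m) log (n - m)`, then `k` of
the points `(i, a i)`, `m ≤ i ≤ n`, are collinear.
(2) If no `k` points `(i, a i)`, `i ≥ 1`, are collinear, then the partial sums of the
reciprocals satisfy `∑_{n ≤ N} 1 / a n ≤ 8 k² log log N + C`. -/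
theorem result (k : ℕ) (hk : 1 ≤ k) (a : ℕ → ℕ) (hpos : ∀ n, 1 ≤ n → 1 ≤ a n)
    (hmono : ∀ m n, 1 ≤ m → m < n → a m < a n) :
    (∀ m n : ℕ, 1 ≤ m → m < n →
      8 * (k : ℝ) ^ 2 * ((a n : ℝ) - a m) < ((n : ℝ) - m) * Real.log ((n : ℝ) - m) →
      ∃ T : Finset ℕ, T ⊆ Finset.Icc m n ∧ T.card = k ∧ OnALine a T) ∧
    ((¬ ∃ T : Finset ℕ, (∀ n ∈ T, 1 ≤ n) ∧ T.card = k ∧ OnALine a T) →
      ∃ C : ℝ, ∀ N : ℕ, 3 ≤ N →
        ∑ n ∈ Finset.Icc 1 N, 1 / (a n : ℝ) ≤
          8 * (k : ℝ) ^ 2 * Real.log (Real.log N) + C) := by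
  have part1 : ∀ m n : ℕ, 1 ≤ m → m < n →
      8 * (k : ℝ) ^ 2 * ((a n : ℝ) - a m) < ((n : ℝ) - m) * Real.log ((n : ℝ) - m) →
      ∃ T : Finset ℕ, T ⊆ Finset.Icc m n ∧ T.card = k ∧ OnALine a T := by
    intro m n hm hmn hlt
    have hc := core (fun i => (a (m + i) : ℤ)) (n - m) k (by omega) hk ?_ ?_
    · obtain ⟨T, hT1, hT2, q, p, c, hq, hT3⟩ := hc
      refine ⟨T.image (fun i => m + i), ?_, ?_, ?_⟩
      · intro x hx
        rw [Finset.mem_image] at hx
        obtain ⟨i, hi, rfl⟩ := hx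
        have := hT1 hi
        rw [Finset.mem_Icc] at this ⊢
        omega
      · rw [Finset.card_image_of_injective, hT2]
        intro x y hxy
        simp only at hxy
        omega
      · apply onALine_of_const a _ (q : ℝ) (p : ℝ) (c - p * m : ℝ)
        · exact_mod_cast hq.ne'
        · intro x hx
          rw [Finset.mem_image] at hx
          obtain ⟨i, hi, rfl⟩ := hx
          have h1 := hT3 i hi
          have h2 : (q : ℝ) * (a (m + i) : ℝ) - p * i = c := by
            exact_mod_cast h1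
          push_cast
          linarith
    · intro i j hij _
      have := hmono (m + i) (m + j) (by omega) (by omega)
      exact_mod_cast this
    · have h1 : m + (n - m) = n := by omega
      simp only [h1, add_zero, Int.cast_natCast]
      rw [Nat.cast_sub hmn.le]
      exact hlt
  refine ⟨part1, ?_⟩
  intro hno
  have hk0 : (1 : ℝ) ≤ k := by exact_mod_cast hk
  -- lower bound for the terms
  have hlow : ∀ n : ℕ, 3 ≤ n →
      1 / (a n : ℝ) ≤ 8 * (k : ℝ) ^ 2 * (1 / (((n : ℝ) - 1) * Real.log ((n : ℝ) - 1))) := by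
    intro n hn
    have hn' : (3 : ℝ) ≤ n := by exact_mod_cast hn
    have hlog : 0 < Real.log ((n : ℝ) - 1) := Real.log_pos (by linarith)
    have han : (1 : ℝ) ≤ a n := by exact_mod_cast hpos n (by omega)
    have ha1 : (1 : ℝ) ≤ a 1 := by exact_mod_cast hpos 1 (by omega)
    have hge : ((n : ℝ) - 1) * Real.log ((n : ℝ) - 1) ≤ 8 * (k : ℝ) ^ 2 * (a n : ℝ) := by
      by_contra hcon
      rw [not_le] at hcon
      obtain ⟨T, hT1, hT2, hT3⟩ := part1 1 n le_rfl (by omega) (by
        push_cast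
        have : 8 * (k : ℝ) ^ 2 * ((a n : ℝ) - a 1) ≤ 8 * (k : ℝ) ^ 2 * (a n : ℝ) :=
          mul_le_mul_of_nonneg_left (by linarith) (by positivity)
        linarith)
      exact hno ⟨T, fun x hx => (Finset.mem_Icc.mp (hT1 hx)).1, hT2, hT3⟩
    have hn1 : (0 : ℝ) < ((n : ℝ) - 1) * Real.log ((n : ℝ) - 1) :=
      mul_pos (by linarith) hlog
    rw [mul_one_div, div_le_div_iff₀ (by linarith) hn1, one_mul]
    exact hge
  set D : ℝ := 3 - 8 * (k : ℝ) ^ 2 * Real.log (Real.log 2) with hD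
  have hterm : ∀ n : ℕ, 1 ≤ n → 1 / (a n : ℝ) ≤ 1 := by
    intro n hn
    have han : (1 : ℝ) ≤ a n := by exact_mod_cast hpos n hn
    rw [div_le_one (by linarith)]
    exact han
  have hind : ∀ N : ℕ, 2 ≤ N → ∑ n ∈ Finset.Icc 1 (N + 1), 1 / (a n : ℝ) ≤
      8 * (k : ℝ) ^ 2 * Real.log (Real.log N) + D := by
    intro N hN
    induction N, hN using Nat.le_induction with
    | base =>
      have e : Finset.Icc 1 (2 + 1) = {1, 2, 3} := by decide
      rw [e]
      simp only [Finset.mem_insert, Finset.mem_singleton, Nat.reduceEqDiff, OfNat.one_ne_ofNat,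
        or_self, not_false_eq_true, Finset.sum_insert, Finset.sum_singleton]
      have h1 := hterm 1 le_rfl
      have h2 := hterm 2 (by omega)
      have h3 := hterm 3 (by omega)
      rw [hD]
      push_cast
      linarith
    | succ N hN ih =>
      have e : Finset.Icc 1 (N + 1 + 1) = insert (N + 1 + 1) (Finset.Icc 1 (N + 1)) := by
        ext x; simp only [Finset.mem_Icc, Finset.mem_insert]; omega
      rw [e, Finset.sum_insert (by simp)]
      have hN' : (2 : ℝ) ≤ N := by exact_mod_cast hN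
      have h1 := hlow (N + 1 + 1) (by omega)
      have h2 := loglog_step N hN'
      have h3 : ((N + 1 + 1 : ℕ) : ℝ) - 1 = (N : ℝ) + 1 := by push_cast; ring
      rw [h3] at h1
      have h4 := mul_le_mul_of_nonneg_left h2 (by positivity : (0 : ℝ) ≤ 8 * (k : ℝ) ^ 2)
      push_cast at h1 ih ⊢
      linarith
  refine ⟨D, ?_⟩
  intro N hN
  have h1 := hind (N - 1) (by omega)
  have h2 : N - 1 + 1 = N := by omega
  rw [h2, Nat.cast_sub (by omega : 1 ≤ N)] at h1
  refine h1.trans ?_
  have hN' : (3 : ℝ) ≤ N := by exact_mod_cast hN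
  have h3 : Real.log (Real.log ((N : ℝ) - ((1 : ℕ) : ℝ))) ≤ Real.log (Real.log N) := by
    apply Real.log_le_log
    · apply Real.log_pos; push_cast; linarith
    · apply Real.log_le_log
      · push_cast; linarith
      · push_cast; linarith
  have h4 := mul_le_mul_of_nonneg_left h3 (by positivity : (0 : ℝ) ≤ 8 * (k : ℝ) ^ 2)
  linarith

end Pool.Agent.Results.MP_029ce3_co.LogGrowth
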