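import Mathlib

/-!
Sequences without `k` collinear points on their graph which stay close to a convex
function have a convergent sum of reciprocals.
-/

namespace Pool.Agent.Results.MP_029ce3_co.NearConvex

open Finset

/-- The points `(n, a n)` with index `n` in `T` lie on one straight line of the plane. -/
def OnALine (a : ℕ → ℕ) (T : Finset ℕ) : Prop :=
  Collinear ℝ ((fun n : ℕ => (((n : ℝ), (a n : ℝ)) : ℝ × ℝ)) '' (T : Set ℕ))

/-- if `q * a n - p * n` is constant on `T` and `q ≠ 0`, the points are collinear -/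
lemma onALine_of_const (a : ℕ → ℕ) (T : Finset ℕ) (q p c : ℝ) (hq : q ≠ 0)
    (h : ∀ n ∈ T, q * (a n : ℝ) - p * n = c) : OnALine a T := by
  unfold OnALine
  rw [collinear_iff_exists_forall_eq_smul_vadd]
  refine ⟨(0, c / q), (1, p / q), ?_⟩
  rintro _ ⟨n, hn, rfl⟩
  refine ⟨n, ?_⟩
  have := h n (by simpa using hn)
  simp only [vadd_eq_add, Prod.smul_mk, smul_eq_mul, mul_one, Prod.mk_add_mk, add_zero,
    Prod.mk.injEq, true_and]
  field_simp
  linarith

/-- pigeonhole: integer values of a function on `range (M+1)` in an interval of length `L` -/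
lemma pigeon (v : ℕ → ℤ) (M k : ℕ) (A L : ℝ) (hL : 0 ≤ L)
    (h1 : ∀ t, t ≤ M → A ≤ (v t : ℝ)) (h2 : ∀ t, t ≤ M → (v t : ℝ) ≤ A + L)
    (hk : 1 ≤ k) (hM : ((k : ℝ) - 1) * (L + 1) < (M : ℝ) + 1) :
    ∃ T : Finset ℕ, T ⊆ Finset.range (M + 1) ∧ T.card = k ∧
      ∃ w : ℤ, ∀ t ∈ T, v t = w := by
  classical
  set S : Finset ℤ := Finset.Icc ⌈A⌉ ⌊A + L⌋ with hS
  have hmaps : ∀ t ∈ Finset.range (M + 1), v t ∈ S := by
    intro t ht
    have ht' : t ≤ M := by simpa [Nat.lt_succ_iff] using ht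
    rw [hS, Finset.mem_Icc]
    exact ⟨Int.ceil_le.mpr (h1 t ht'), Int.le_floor.mpr (h2 t ht')⟩
  have hcard : ((S.card : ℕ) : ℝ) ≤ L + 1 := by
    rw [hS, Int.card_Icc]
    have h3 : ((⌊A + L⌋ + 1 - ⌈A⌉ : ℤ) : ℝ) ≤ L + 1 := by
      push_cast
      have := Int.floor_le (A + L)
      have := Int.le_ceil A
      linarith
    rcases le_total 0 (⌊A + L⌋ + 1 - ⌈A⌉) with h4 | h4
    · have : (((⌊A + L⌋ + 1 - ⌈A⌉).toNat : ℕ) : ℝ) = ((⌊A + L⌋ + 1 - ⌈A⌉ : ℤ) : ℝ) := by
        have := Int.toNat_of_nonneg h4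
        exact_mod_cast this
      rw [this]; exact h3
    · rw [Int.toNat_of_nonpos h4]
      simp; linarith
  have hlt : S.card * (k - 1) < (Finset.range (M + 1)).card := by
    rw [Finset.card_range]
    have : ((S.card * (k - 1) : ℕ) : ℝ) < ((M + 1 : ℕ) : ℝ) := by
      push_cast [Nat.cast_sub hk]
      have hk' : (0 : ℝ) ≤ (k : ℝ) - 1 := by
        have : (1 : ℝ) ≤ k := by exact_mod_cast hk
        linarith
      nlinarith
    exact_mod_cast this
  obtain ⟨w, hw, hw2⟩ :=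
    Finset.exists_lt_card_fiber_of_mul_lt_card_of_maps_to hmaps hlt
  have hw3 : k ≤ ({x ∈ Finset.range (M + 1) | v x = w}).card := by omega
  obtain ⟨T, hT1, hT2⟩ := Finset.exists_subset_card_eq hw3
  refine ⟨T, hT1.trans (Finset.filter_subset _ _), hT2, w, ?_⟩
  intro t ht
  have := hT1 ht
  rw [Finset.mem_filter] at this
  exact this.2

/-- The window estimate: if `a` is within `E` of `f` on `[m, m + W]`, `W ≥ 40 k² E`, `f` is
convex and no `k` points are collinear, then the slope of `f` grows by `1/(8k²)`. -/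
lemma window (k : ℕ) (hk : 1 ≤ k) (a : ℕ → ℕ)
    (hno : ¬ ∃ T : Finset ℕ, (∀ n ∈ T, 1 ≤ n) ∧ T.card = k ∧ OnALine a T)
    (f : ℕ → ℝ) (hconv : ∀ n, 1 ≤ n → f (n + 1) - f n ≤ f (n + 2) - f (n + 1))
    (m W : ℕ) (hm : 1 ≤ m) (E : ℝ) (hE : 1 ≤ E) (hW : 40 * (k : ℝ) ^ 2 * E ≤ W)
    (happ : ∀ n, m ≤ n → n ≤ m + W → |(a n : ℝ) - f n| ≤ E) :
    1 / (8 * (k : ℝ) ^ 2) ≤ (f (m + W + 1) - f (m + W)) - (f (m + 1) - f m) := by
  classical
  by_contra hcon
  rw [not_le] at hcon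
  have hk0 : (1 : ℝ) ≤ k := by exact_mod_cast hk
  have hkpos : (0 : ℝ) < k := by linarith
  set s : ℝ := f (m + 1) - f m with hs
  set η : ℝ := 1 / (8 * (k : ℝ) ^ 2) with hη
  have hη0 : 0 < η := by positivity
  -- slopes are monotone
  have hslope : ∀ i j : ℕ, i ≤ j → f (m + i + 1) - f (m + i) ≤ f (m + j + 1) - f (m + j) := by
    intro i j hij
    induction j, hij using Nat.le_induction with
    | base => exact le_rfl
    | succ j hij ih =>
      have := hconv (m + j) (by omega)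
      have e1 : m + (j + 1) + 1 = m + j + 2 := by ring
      have e2 : m + (j + 1) = m + j + 1 := by ring
      rw [e1, e2]
      linarith
  have hf1 : ∀ t : ℕ, f m + s * t ≤ f (m + t) := by
    intro t
    induction t with
    | zero => simp
    | succ t ih =>
      have h1 := hslope 0 t (by omega)
      rw [add_zero] at h1
      have e2 : m + (t + 1) = m + t + 1 := by ring
      rw [e2]
      push_cast
      rw [hs] at *
      nlinarith
  have hf2 : ∀ t : ℕ, t ≤ W → f (m + t) ≤ f m + (s + η) * t := by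
    intro t
    induction t with
    | zero => intro _; simp
    | succ t ih =>
      intro ht
      have h1 := hslope t W (by omega)
      have h2 := ih (by omega)
      have e2 : m + (t + 1) = m + t + 1 := by ring
      rw [e2]
      push_cast
      nlinarith
  -- Dirichlet
  obtain ⟨p, q, hq0, hqQ, hdir⟩ :=
    Real.exists_int_int_abs_mul_sub_le s (n := 2 * k) (by omega)
  lift q to ℕ using hq0.le
  have hq0' : 0 < q := by exact_mod_cast hq0
  have hqQ' : q ≤ 2 * k := by exact_mod_cast hqQ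
  set M : ℕ := W / q with hM
  have hMq : ∀ t, t ≤ M → q * t ≤ W := by
    intro t ht
    calc q * t ≤ q * (W / q) := Nat.mul_le_mul_left _ ht
      _ ≤ W := Nat.mul_div_le W q
  have hqpos : (0 : ℝ) < q := by exact_mod_cast hq0'
  have hMle : (M : ℝ) ≤ W / q := by
    rw [hM]; exact Nat.cast_div_le
  have hMgt : (W : ℝ) / q < (M : ℝ) + 1 := by
    rw [div_lt_iff₀ hqpos]
    have h1 : W < q * (W / q + 1) := Nat.lt_mul_div_succ W hq0'
    have h2 : (W : ℝ) < ((q * (M + 1) : ℕ) : ℝ) := by exact_mod_cast h1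
    push_cast at h2
    linarith
  set v : ℕ → ℤ := fun t => (a (m + q * t) : ℤ) - a m - p * t with hv
  set δ : ℝ := (q : ℝ) * s - p with hδ
  have hδabs : |δ| ≤ 1 / (2 * k + 1) := by
    have := hdir
    push_cast at this
    exact this
  have hW0 : (0 : ℝ) ≤ W := by positivity
  have hv' : ∀ t, t ≤ M → -(2 * E) ≤ (v t : ℝ) - δ * t ∧ (v t : ℝ) - δ * t ≤ 2 * E + η * W := by
    intro t ht
    have hqt := hMq t ht
    have h1 := hf1 (q * t)
    have h2 := hf2 (q * t) hqt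
    have h3 := abs_le.mp (happ (m + q * t) (by omega) (by omega))
    have h4 := abs_le.mp (happ m le_rfl (by omega))
    have h5 : ((q * t : ℕ) : ℝ) ≤ W := by exact_mod_cast hqt
    have h6 : η * ((q * t : ℕ) : ℝ) ≤ η * W := mul_le_mul_of_nonneg_left h5 hη0.le
    simp only [hv, hδ]
    push_cast at h1 h2 h5 h6 ⊢
    constructor
    · nlinarith [h1, h3.1, h4.2]
    · nlinarith [h2, h3.2, h4.1, h6]
  -- the interval
  set D : ℝ := |δ| * M with hD
  have hD0 : 0 ≤ D := by positivity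
  have hDle : D ≤ (1 / (2 * k + 1)) * (W / q) := by
    rw [hD]
    exact mul_le_mul hδabs hMle (by positivity) (by positivity)
  set A : ℝ := - (2 * E) + min 0 (δ * M) with hA
  have hmin0 : ∀ t : ℕ, t ≤ M → min 0 (δ * M) ≤ δ * t ∧ δ * t ≤ min 0 (δ * M) + D := by
    intro t ht
    have ht' : (t : ℝ) ≤ M := by exact_mod_cast ht
    have ht0 : (0 : ℝ) ≤ t := by positivity
    have hM0 : (0 : ℝ) ≤ M := by positivity
    rcases le_total 0 δ with hd | hd
    · have h1 : min 0 (δ * M) = 0 := min_eq_left (by positivity)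
      rw [h1, hD, abs_of_nonneg hd]
      constructor <;> nlinarith
    · have h1 : min 0 (δ * M) = δ * M := min_eq_right (by nlinarith)
      rw [h1, hD, abs_of_nonpos hd]
      constructor <;> nlinarith
  have hηW : 0 ≤ η * W := by positivity
  have hp := pigeon v M k A (4 * E + η * W + D) (by positivity) ?_ ?_ hk ?_
  · obtain ⟨T, hT1, hT2, w, hw⟩ := hp
    apply hno
    refine ⟨T.image (fun t => m + q * t), ?_, ?_, ?_⟩
    · intro n hn
      rw [Finset.mem_image] at hn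
      obtain ⟨t, ht, rfl⟩ := hn
      omega
    · rw [Finset.card_image_of_injective, hT2]
      intro s t hst
      simp only at hst
      have : q * s = q * t := by omega
      exact Nat.eq_of_mul_eq_mul_left hq0' this
    · apply onALine_of_const a _ (q : ℝ) (p : ℝ) (w * q + q * a m - p * m : ℝ)
      · exact_mod_cast hq0'.ne'
      · intro x hx
        rw [Finset.mem_image] at hx
        obtain ⟨t, ht, rfl⟩ := hx
        have h1 := hw t ht
        simp only [hv] at h1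
        have h2 : (a (m + q * t) : ℝ) = w + a m + p * t := by
          have : (a (m + q * t) : ℤ) = w + a m + p * t := by linarith
          exact_mod_cast this
        rw [h2]
        push_cast
        ring
  · intro t ht
    have h1 := hv' t ht
    have h2 := hmin0 t ht
    rw [hA]
    linarith [h1.1, h1.2, h2.1, h2.2]
  · intro t ht
    have h1 := hv' t ht
    have h2 := hmin0 t ht
    rw [hA]
    linarith [h1.1, h1.2, h2.1, h2.2]
  · -- the numerical inequality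
    refine lt_of_le_of_lt ?_ hMgt
    have hq2k : (q : ℝ) ≤ 2 * k := by exact_mod_cast hqQ'
    have hk1 : (0 : ℝ) ≤ (k : ℝ) - 1 := by linarith
    -- everything is compared with X = W / (2k)
    have hX : (W : ℝ) / (2 * k) ≤ W / q :=
      div_le_div_of_nonneg_left hW0 hqpos hq2k
    have g1 : ((k : ℝ) - 1) * (4 * E + 1) ≤ (W : ℝ) / (8 * k) := by
      rw [le_div_iff₀ (by positivity)]
      have : ((k : ℝ) - 1) * (4 * E + 1) * (8 * k) ≤ 40 * (k : ℝ) ^ 2 * E := by
        have e1 : ((k : ℝ) - 1) * (4 * E + 1) ≤ k * (5 * E) := by nlinarith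
        have e2 := mul_le_mul_of_nonneg_right e1 (by positivity : (0 : ℝ) ≤ 8 * k)
        nlinarith
      linarith
    have g2 : ((k : ℝ) - 1) * (η * W) ≤ (W : ℝ) / (8 * k) := by
      have e1 : ((k : ℝ) - 1) * (η * W) ≤ k * (η * W) := by nlinarith
      have e2 : (k : ℝ) * (η * W) = W / (8 * k) := by
        rw [hη]; field_simp
      linarith
    have g3 : ((k : ℝ) - 1) * D ≤ (W / q) / 2 := by
      have e1 : ((k : ℝ) - 1) * D ≤ ((k : ℝ) - 1) * ((1 / (2 * k + 1)) * (W / q)) :=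
        mul_le_mul_of_nonneg_left hDle hk1
      have e2 : ((k : ℝ) - 1) * (1 / (2 * k + 1)) ≤ 1 / 2 := by
        rw [mul_one_div, div_le_div_iff₀ (by positivity) (by norm_num)]
        linarith
      have hWq : (0 : ℝ) ≤ W / q := by positivity
      nlinarith [mul_le_mul_of_nonneg_right e2 hWq]
    have g4 : (W : ℝ) / (8 * k) + W / (8 * k) = (W / (2 * k)) / 2 := by
      field_simp; ring
    have : ((k : ℝ) - 1) * (4 * E + η * W + D + 1) =
        ((k : ℝ) - 1) * (4 * E + 1) + ((k : ℝ) - 1) * (η * W) + ((k : ℝ) - 1) * D := by ring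
    rw [this]
    linarith

/-- slopes of a convex function are monotone -/
lemma slope_mono (f : ℕ → ℝ) (hconv : ∀ n, 1 ≤ n → f (n + 1) - f n ≤ f (n + 2) - f (n + 1))
    (m n : ℕ) (hm : 1 ≤ m) (hmn : m ≤ n) : f (m + 1) - f m ≤ f (n + 1) - f n := by
  induction n, hmn using Nat.le_induction with
  | base => exact le_rfl
  | succ n hmn ih =>
    have := hconv n (by omega)
    linarith

/-- a convex function lies above its tangents -/
lemma tangent (f : ℕ → ℝ) (hconv : ∀ n, 1 ≤ n → f (n + 1) - f n ≤ f (n + 2) - f (n + 1))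
    (m t : ℕ) (hm : 1 ≤ m) : f m + (f (m + 1) - f m) * t ≤ f (m + t) := by
  induction t with
  | zero => simp
  | succ t ih =>
    have h1 := slope_mono f hconv m (m + t) hm (by omega)
    have e2 : m + (t + 1) = m + t + 1 := by ring
    rw [e2]
    push_cast
    nlinarith

/-- `N` consecutive windows -/
lemma block (k : ℕ) (hk : 1 ≤ k) (a : ℕ → ℕ)
    (hno : ¬ ∃ T : Finset ℕ, (∀ n ∈ T, 1 ≤ n) ∧ T.card = k ∧ OnALine a T)
    (f : ℕ → ℝ) (hconv : ∀ n, 1 ≤ n → f (n + 1) - f n ≤ f (n + 2) - f (n + 1))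
    (m W : ℕ) (hm : 1 ≤ m) (E : ℝ) (hE : 1 ≤ E) (hW : 40 * (k : ℝ) ^ 2 * E ≤ W) (N : ℕ)
    (happ : ∀ n, m ≤ n → n ≤ m + N * W → |(a n : ℝ) - f n| ≤ E) :
    N * (1 / (8 * (k : ℝ) ^ 2)) ≤
      (f (m + N * W + 1) - f (m + N * W)) - (f (m + 1) - f m) := by
  induction N with
  | zero => simp
  | succ N ih =>
    have e1 : m + (N + 1) * W = m + N * W + W := by ring
    have h1 := ih (fun n h1 h2 => happ n h1 (by rw [e1]; omega))
    have h2 := window k hk a hno f hconv (m + N * W) W (by omega) E hE hW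
      (fun n h1 h2 => happ n (by omega) (by rw [e1]; omega))
    rw [e1]
    push_cast
    linarith

/-- the increase of the slope over a dyadic block -/
lemma dyadic (k : ℕ) (hk : 1 ≤ k) (a : ℕ → ℕ)
    (hno : ¬ ∃ T : Finset ℕ, (∀ n ∈ T, 1 ≤ n) ∧ T.card = k ∧ OnALine a T)
    (f : ℕ → ℝ) (hconv : ∀ n, 1 ≤ n → f (n + 1) - f n ≤ f (n + 2) - f (n + 1))
    (j : ℕ) (G : ℝ) (hG0 : 0 < G) (hGj : G ≤ 2 ^ j) (hGk : 164 * (k : ℝ) ^ 2 ≤ G)
    (happ : ∀ n, 2 ^ j ≤ n → n ≤ 2 ^ (j + 1) → |(a n : ℝ) - f n| ≤ 2 ^ (j + 1) / G) :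
    G * (1 / (1312 * (k : ℝ) ^ 4)) ≤
      (f (2 ^ (j + 1) + 1) - f (2 ^ (j + 1))) - (f (2 ^ j + 1) - f (2 ^ j)) := by
  have hk0 : (1 : ℝ) ≤ k := by exact_mod_cast hk
  have hkpos : (0 : ℝ) < k := by linarith
  have h2j : (0 : ℝ) < 2 ^ j := by positivity
  set E : ℝ := 2 ^ (j + 1) / G with hE
  have hE1 : 1 ≤ E := by
    rw [hE, le_div_iff₀ hG0, pow_succ]
    linarith
  set W : ℕ := ⌈40 * (k : ℝ) ^ 2 * E⌉₊ with hW
  have hW1 : 40 * (k : ℝ) ^ 2 * E ≤ W := Nat.le_ceil _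
  have hk2 : (1 : ℝ) ≤ (k : ℝ) ^ 2 := by nlinarith
  have hW2 : (W : ℝ) ≤ 41 * (k : ℝ) ^ 2 * E := by
    have h1 : (W : ℝ) < 40 * (k : ℝ) ^ 2 * E + 1 := Nat.ceil_lt_add_one (by positivity)
    nlinarith
  have hWpos : 0 < W := by
    have : (0 : ℝ) < W := lt_of_lt_of_le (by positivity) hW1
    exact_mod_cast this
  set N : ℕ := 2 ^ j / W with hN
  have hNW : N * W ≤ 2 ^ j := Nat.div_mul_le_self _ _
  have hN1 : G / (82 * (k : ℝ) ^ 2) < N + 1 := by
    have h1 : 2 ^ j < W * (N + 1) := Nat.lt_mul_div_succ _ hWpos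
    have h2 : (2 : ℝ) ^ j < W * (N + 1) := by exact_mod_cast h1
    have h3 : (W : ℝ) * (N + 1) ≤ 41 * (k : ℝ) ^ 2 * E * (N + 1) :=
      mul_le_mul_of_nonneg_right hW2 (by positivity)
    have h4 : (2 : ℝ) ^ j < 41 * (k : ℝ) ^ 2 * (2 ^ j * 2 / G) * (N + 1) := by
      have hE' : E = 2 ^ j * 2 / G := by rw [hE, pow_succ]
      rw [hE'] at h3
      linarith
    have h5 : 41 * (k : ℝ) ^ 2 * (2 ^ j * 2 / G) * (N + 1) =
        2 ^ j * ((82 * (k : ℝ) ^ 2) * (N + 1) / G) := by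
      field_simp; ring
    rw [h5] at h4
    have h6 : 1 < (82 * (k : ℝ) ^ 2) * (N + 1) / G := by
      by_contra hcon
      rw [not_lt] at hcon
      nlinarith
    rw [lt_div_iff₀ hG0] at h6
    rw [div_lt_iff₀ (by positivity)]
    linarith
  have hN2 : G / (164 * (k : ℝ) ^ 2) ≤ N := by
    have h1 : 1 ≤ G / (164 * (k : ℝ) ^ 2) := by
      rw [le_div_iff₀ (by positivity)]; linarith
    have h2 : G / (82 * (k : ℝ) ^ 2) = G / (164 * (k : ℝ) ^ 2) + G / (164 * (k : ℝ) ^ 2) := by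
      field_simp; ring
    linarith
  have hb := block k hk a hno f hconv (2 ^ j) W Nat.one_le_two_pow E hE1 hW1 N
    (fun n h1 h2 => happ n h1 (by rw [pow_succ]; omega))
  have hm := slope_mono f hconv (2 ^ j + N * W) (2 ^ (j + 1))
    (by have : 1 ≤ 2 ^ j := Nat.one_le_two_pow
        omega) (by rw [pow_succ]; omega)
  have h7 : G * (1 / (1312 * (k : ℝ) ^ 4)) ≤ N * (1 / (8 * (k : ℝ) ^ 2)) := by
    have h8 : G * (1 / (1312 * (k : ℝ) ^ 4)) =
        G / (164 * (k : ℝ) ^ 2) * (1 / (8 * (k : ℝ) ^ 2)) := by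
      field_simp; ring
    rw [h8]
    exact mul_le_mul_of_nonneg_right hN2 (by positivity)
  linarith

/-- the slope at `2 ^ (i + t)` -/
lemma slope_growth (k : ℕ) (hk : 1 ≤ k) (a : ℕ → ℕ)
    (hno : ¬ ∃ T : Finset ℕ, (∀ n ∈ T, 1 ≤ n) ∧ T.card = k ∧ OnALine a T)
    (f : ℕ → ℝ) (hconv : ∀ n, 1 ≤ n → f (n + 1) - f n ≤ f (n + 2) - f (n + 1))
    (g : ℕ → ℝ) (hg : ∀ j, 1 ≤ j → 0 < g j) (hgm : ∀ i j, 1 ≤ i → i ≤ j → g i ≤ g j)
    (hgj : ∀ j, 1 ≤ j → g j ≤ j) (N0 : ℕ)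
    (happ : ∀ n, N0 ≤ n → |(a n : ℝ) - f n| ≤ n / g (Nat.log 2 n))
    (i : ℕ) (hi : 1 ≤ i) (hiN : N0 ≤ 2 ^ i) (hgi : 164 * (k : ℝ) ^ 2 ≤ g i) (t : ℕ) :
    t * g i * (1 / (1312 * (k : ℝ) ^ 4)) ≤
      (f (2 ^ (i + t) + 1) - f (2 ^ (i + t))) - (f (2 ^ i + 1) - f (2 ^ i)) := by
  induction t with
  | zero => simp
  | succ t ih =>
    have hgt : g i ≤ g (i + t) := hgm i (i + t) hi (by omega)
    have hg0 : 0 < g (i + t) := hg _ (by omega)
    have h2 : (2 : ℕ) ^ i ≤ 2 ^ (i + t) := Nat.pow_le_pow_right (by norm_num) (by omega)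
    have h1 := dyadic k hk a hno f hconv (i + t) (g (i + t)) hg0 ?_ (by linarith) ?_
    · have e : i + (t + 1) = i + t + 1 := by ring
      rw [e]
      have h3 : g i * (1 / (1312 * (k : ℝ) ^ 4)) ≤ g (i + t) * (1 / (1312 * (k : ℝ) ^ 4)) :=
        mul_le_mul_of_nonneg_right hgt (by positivity)
      push_cast
      linarith
    · have h3 := hgj (i + t) (by omega)
      have h4 : ((i + t : ℕ) : ℝ) ≤ 2 ^ (i + t) := by
        have := (Nat.lt_two_pow_self (n := i + t)).le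
        exact_mod_cast this
      linarith
    · intro n hn1 hn2
      have h5 := happ n (by omega)
      have hn0 : n ≠ 0 := by
        have : 1 ≤ 2 ^ (i + t) := Nat.one_le_two_pow
        omega
      have h6 : i + t ≤ Nat.log 2 n := (Nat.le_log_iff_pow_le (by norm_num) hn0).mpr hn1
      have h7 : g (i + t) ≤ g (Nat.log 2 n) := hgm _ _ (by omega) h6
      have h8 : (n : ℝ) ≤ 2 ^ (i + t + 1) := by exact_mod_cast hn2
      refine h5.trans ?_
      exact div_le_div₀ (by positivity) h8 hg0 h7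

/-- the lower bound for `a (2 * 4 ^ i)` -/
lemma lower (k : ℕ) (hk : 1 ≤ k) (a : ℕ → ℕ)
    (hno : ¬ ∃ T : Finset ℕ, (∀ n ∈ T, 1 ≤ n) ∧ T.card = k ∧ OnALine a T)
    (f : ℕ → ℝ) (hconv : ∀ n, 1 ≤ n → f (n + 1) - f n ≤ f (n + 2) - f (n + 1))
    (g : ℕ → ℝ) (hg : ∀ j, 1 ≤ j → 0 < g j) (hgm : ∀ i j, 1 ≤ i → i ≤ j → g i ≤ g j)
    (hgj : ∀ j, 1 ≤ j → g j ≤ j) (N0 : ℕ)
    (happ : ∀ n, N0 ≤ n → |(a n : ℝ) - f n| ≤ n / g (Nat.log 2 n))
    (i : ℕ) (hi : 1 ≤ i) (hiN : N0 ≤ 2 ^ i) (hgi : 164 * (k : ℝ) ^ 2 ≤ g i) :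
    (4 : ℝ) ^ i * (i * g i * (1 / (1312 * (k : ℝ) ^ 4)) + (f 2 - f 1) - 3 / g 1) ≤
      a (2 * 4 ^ i) := by
  have e4 : (4 : ℕ) ^ i = 2 ^ (i + i) := by rw [← two_mul, pow_mul]; norm_num
  have h1 := slope_growth k hk a hno f hconv g hg hgm hgj N0 happ i hi hiN hgi i
  have h2 := slope_mono f hconv 1 (2 ^ i) le_rfl Nat.one_le_two_pow
  have h3 := tangent f hconv (2 ^ (i + i)) (2 ^ (i + i)) Nat.one_le_two_pow
  have hN1 : N0 ≤ 2 ^ (i + i) := hiN.trans (Nat.pow_le_pow_right (by norm_num) (by omega))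
  have h4 := happ (2 ^ (i + i)) hN1
  have h5 := happ (2 * 2 ^ (i + i)) (by omega)
  have hg1 : 0 < g 1 := hg 1 le_rfl
  have hx : (0 : ℝ) < 2 ^ (i + i) := by positivity
  have h6 : |(a (2 ^ (i + i)) : ℝ) - f (2 ^ (i + i))| ≤ 2 ^ (i + i) / g 1 := by
    refine h4.trans ?_
    rw [Nat.log_pow (by norm_num)]
    push_cast
    exact div_le_div_of_nonneg_left hx.le hg1 (hgm 1 _ le_rfl (by omega))
  have h7 : |(a (2 * 2 ^ (i + i)) : ℝ) - f (2 * 2 ^ (i + i))| ≤ 2 * 2 ^ (i + i) / g 1 := by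
    refine h5.trans ?_
    have e5 : 2 * 2 ^ (i + i) = 2 ^ (i + i + 1) := by rw [pow_succ]; ring
    have e6 : Nat.log 2 (2 * 2 ^ (i + i)) = i + i + 1 := by
      rw [e5, Nat.log_pow (by norm_num)]
    rw [e6]
    push_cast
    exact div_le_div_of_nonneg_left (by positivity) hg1 (hgm 1 _ le_rfl (by omega))
  rw [← two_mul (2 ^ (i + i))] at h3
  have h8 := abs_le.mp h6
  have h9 := abs_le.mp h7
  have ha : (0 : ℝ) ≤ a (2 ^ (i + i)) := by positivity
  have hs : (i * g i * (1 / (1312 * (k : ℝ) ^ 4)) + (f 2 - f 1)) ≤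
      f (2 ^ (i + i) + 1) - f (2 ^ (i + i)) := by
    have : f 2 - f 1 = f (1 + 1) - f 1 := rfl
    linarith
  have hs2 := mul_le_mul_of_nonneg_left hs hx.le
  have e7 : (4 : ℝ) ^ i = 2 ^ (i + i) := by exact_mod_cast e4
  rw [e4, e7]
  push_cast at h3
  have e8 : (2 : ℝ) * 2 ^ (i + i) / g 1 = 2 * (2 ^ (i + i) / g 1) := by ring
  rw [e8] at h9
  have e9 : (2 : ℝ) ^ (i + i) * (i * g i * (1 / (1312 * (k : ℝ) ^ 4)) + (f 2 - f 1) - 3 / g 1) =
      2 ^ (i + i) * (i * g i * (1 / (1312 * (k : ℝ) ^ 4)) + (f 2 - f 1)) -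
        3 * (2 ^ (i + i) / g 1) := by ring
  rw [e9]
  nlinarith [h8.1, h8.2, h9.1, h9.2]

/-- the theorem when `g j ≤ j` -/
lemma main_aux (k : ℕ) (hk : 1 ≤ k) (a : ℕ → ℕ) (hpos : ∀ n, 1 ≤ n → 1 ≤ a n)
    (hmono : ∀ m n, 1 ≤ m → m < n → a m < a n)
    (hno : ¬ ∃ T : Finset ℕ, (∀ n ∈ T, 1 ≤ n) ∧ T.card = k ∧ OnALine a T)
    (f : ℕ → ℝ) (hconv : ∀ n, 1 ≤ n → f (n + 1) - f n ≤ f (n + 2) - f (n + 1))
    (g : ℕ → ℝ) (hg : ∀ j, 1 ≤ j → 0 < g j) (hgm : ∀ i j, 1 ≤ i → i ≤ j → g i ≤ g j)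
    (hgj : ∀ j, 1 ≤ j → g j ≤ j) (hsum : Summable fun j : ℕ => 1 / ((j : ℝ) * g j)) (N0 : ℕ)
    (happ : ∀ n, N0 ≤ n → |(a n : ℝ) - f n| ≤ n / g (Nat.log 2 n)) :
    Summable fun n : ℕ => 1 / (a n : ℝ) := by
  have hk0 : (1 : ℝ) ≤ k := by exact_mod_cast hk
  have hkpos : (0 : ℝ) < k := by linarith
  have hg1 : 0 < g 1 := hg 1 le_rfl
  -- g is unbounded
  have hunb : ∃ i0 : ℕ, 1 ≤ i0 ∧ 164 * (k : ℝ) ^ 2 ≤ g i0 := by
    by_contra hcon
    push Not at hcon
    apply Real.not_summable_one_div_natCast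
    have h1 : Summable fun j : ℕ => (164 * (k : ℝ) ^ 2) * (1 / ((j : ℝ) * g j)) :=
      hsum.mul_left _
    refine Summable.of_nonneg_of_le (fun j => by positivity) ?_ h1
    intro j
    rcases Nat.eq_zero_or_pos j with h0 | h0
    · subst h0; simp
    · have hj : (0 : ℝ) < j := by exact_mod_cast h0
      have h2 := hcon j h0
      have h3 := hg j h0
      rw [mul_one_div, div_le_div_iff₀ hj (by positivity)]
      nlinarith
  obtain ⟨i0, hi0, hgi0⟩ := hunb
  set c : ℝ := 1 / (1312 * (k : ℝ) ^ 4) with hc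
  have hcpos : 0 < c := by positivity
  -- eventually the main term dominates
  obtain ⟨i1, hi1⟩ := exists_nat_ge ((2 / (c * g 1)) * (3 / g 1 - (f 2 - f 1)))
  have hlow : ∀ i : ℕ, i0 + i1 + N0 ≤ i → (4 : ℝ) ^ i * (c / 2 * (i * g i)) ≤ a (2 * 4 ^ i) := by
    intro i hi
    have hN : N0 ≤ 2 ^ i := by
      have := (Nat.lt_two_pow_self (n := i)).le
      omega
    have hgi : g i0 ≤ g i := hgm i0 i hi0 (by omega)
    have h1 := lower k hk a hno f hconv g hg hgm hgj N0 happ i (by omega) hN (by linarith)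
    refine le_trans ?_ h1
    apply mul_le_mul_of_nonneg_left _ (by positivity)
    have h2 : (i1 : ℝ) ≤ i := by exact_mod_cast (by omega : i1 ≤ i)
    have h3 : g 1 ≤ g i := hgm 1 i le_rfl (by omega)
    have h4 : 3 / g 1 - (f 2 - f 1) ≤ c / 2 * (i * g 1) := by
      have h5 : (2 / (c * g 1)) * (3 / g 1 - (f 2 - f 1)) ≤ i := hi1.trans h2
      rw [div_mul_eq_mul_div, div_le_iff₀ (by positivity)] at h5
      linarith
    have h6 : c / 2 * (i * g 1) ≤ c / 2 * (i * g i) := by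
      apply mul_le_mul_of_nonneg_left _ (by positivity)
      exact mul_le_mul_of_nonneg_left h3 (by positivity)
    have h7 : i * g i * c = c / 2 * (i * g i) + c / 2 * (i * g i) := by ring
    rw [← hc] at *
    linarith
  -- condensation along `2 * 4 ^ i`
  have hanti : ∀ ⦃m n : ℕ⦄, 0 < m → m ≤ n → 1 / (a n : ℝ) ≤ 1 / (a m : ℝ) := by
    intro m n hm hmn
    have h1 : 1 ≤ a m := hpos m hm
    have h2 : a m ≤ a n := by
      rcases Nat.eq_or_lt_of_le hmn with h | h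
      · rw [h]
      · exact (hmono m n hm h).le
    have h3 : (1 : ℝ) ≤ a m := by exact_mod_cast h1
    have h4 : (a m : ℝ) ≤ a n := by exact_mod_cast h2
    exact one_div_le_one_div_of_le (by linarith) h4
  have hiff := summable_schlomilch_iff_of_nonneg (C := 4) (u := fun i : ℕ => 2 * 4 ^ i)
    (f := fun n : ℕ => 1 / (a n : ℝ)) (fun n => by positivity) hanti
    (fun n => by positivity) ?_ (by norm_num) ?_
  · rw [← hiff]
    have hs2 : Summable fun i : ℕ => (12 / c) * (1 / ((i : ℝ) * g i)) := hsum.mul_left _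
    refine Summable.of_norm_bounded_eventually_nat hs2 ?_
    filter_upwards [Filter.eventually_ge_atTop (i0 + i1 + N0)] with i hi
    have h1 := hlow i hi
    have hi' : 1 ≤ i := by omega
    have hi'' : (0 : ℝ) < i := by exact_mod_cast hi'
    have hgi : 0 < g i := hg i hi'
    have hX : (0 : ℝ) < 4 ^ i * (c / 2 * (i * g i)) := by positivity
    have hapos : (0 : ℝ) < a (2 * 4 ^ i) := lt_of_lt_of_le hX h1
    rw [Real.norm_eq_abs, abs_of_nonneg]
    · push_cast
      rw [mul_one_div, pow_succ]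
      have e1 : (2 : ℝ) * (4 ^ i * 4) - 2 * 4 ^ i = 6 * 4 ^ i := by ring
      rw [e1, mul_one_div, div_le_iff₀ hapos, div_div, div_mul_eq_mul_div,
        le_div_iff₀ (by positivity)]
      nlinarith
    · push_cast
      apply mul_nonneg
      · rw [pow_succ]
        have : (0 : ℝ) < 4 ^ i := by positivity
        linarith
      · positivity
  · intro x y hxy
    simp only
    have := Nat.pow_lt_pow_right (a := 4) (by norm_num) hxy
    omega
  · intro n
    simp only [smul_eq_mul]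
    rw [pow_succ, pow_succ]
    omega

/-- **Theorem.** Let `1 ≤ a 1 < a 2 < ...` be integers with no `k` collinear points on the graph.
If `a` stays within `n / g (log₂ n)` of a convex function `f`, where `g` is positive, monotone and
`∑ 1 / (j g j)` converges, then `∑ 1 / a n` converges. -/
theorem result (k : ℕ) (hk : 1 ≤ k) (a : ℕ → ℕ) (hpos : ∀ n, 1 ≤ n → 1 ≤ a n)
    (hmono : ∀ m n, 1 ≤ m → m < n → a m < a n)
    (hno : ¬ ∃ T : Finset ℕ, (∀ n ∈ T, 1 ≤ n) ∧ T.card = k ∧ OnALine a T)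
    (f : ℕ → ℝ) (hconv : ∀ n, 1 ≤ n → f (n + 1) - f n ≤ f (n + 2) - f (n + 1))
    (g : ℕ → ℝ) (hg : ∀ j, 1 ≤ j → 0 < g j) (hgm : ∀ i j, 1 ≤ i → i ≤ j → g i ≤ g j)
    (hsum : Summable fun j : ℕ => 1 / ((j : ℝ) * g j)) (N0 : ℕ)
    (happ : ∀ n, N0 ≤ n → |(a n : ℝ) - f n| ≤ n / g (Nat.log 2 n)) :
    Summable fun n : ℕ => 1 / (a n : ℝ) := by
  have h1 : Summable fun j : ℕ => 1 / ((j : ℝ) * (j : ℝ)) := by
    have := Real.summable_one_div_nat_pow (p := 2).mpr (by norm_num)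
    refine this.congr ?_
    intro j
    rw [sq]
  refine main_aux k hk a hpos hmono hno f hconv (fun j => min (g j) j) ?_ ?_ ?_ ?_ (N0 + 2) ?_
  · intro j hj
    have : (0 : ℝ) < j := by exact_mod_cast hj
    exact lt_min (hg j hj) this
  · intro i j hi hij
    have : (i : ℝ) ≤ j := by exact_mod_cast hij
    exact min_le_min (hgm i j hi hij) this
  · intro j hj
    exact min_le_right _ _
  · refine Summable.of_nonneg_of_le ?_ ?_ (hsum.add h1)
    · intro j
      rcases Nat.eq_zero_or_pos j with h0 | h0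
      · subst h0; simp
      · have hj : (0 : ℝ) < j := by exact_mod_cast h0
        have := lt_min (hg j h0) hj
        positivity
    · intro j
      rcases Nat.eq_zero_or_pos j with h0 | h0
      · subst h0; simp
      · have hj : (0 : ℝ) < j := by exact_mod_cast h0
        have hgj := hg j h0
        rcases le_total (g j) j with h | h
        · rw [min_eq_left h]
          have : (0 : ℝ) ≤ 1 / ((j : ℝ) * j) := by positivity
          linarith
        · rw [min_eq_right h]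
          have : (0 : ℝ) ≤ 1 / ((j : ℝ) * g j) := by positivity
          linarith
  · intro n hn
    refine (happ n (by omega)).trans ?_
    have hl : 1 ≤ Nat.log 2 n := (Nat.le_log_iff_pow_le (by norm_num) (by omega)).mpr (by omega)
    have hl' : (0 : ℝ) < Nat.log 2 n := by exact_mod_cast hl
    exact div_le_div_of_nonneg_left (by positivity) (lt_min (hg _ hl) hl') (min_le_left _ _)

end Pool.Agent.Results.MP_029ce3_co.NearConvex
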