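import Pool.Agent.H58Slow.Final
import Pool.Agent.H58Slow.ThreeHalves

/-!
# Slowly growing sequences with few collinear points (MP_029ce3_co)

For every `θ < 1` there is a strictly increasing sequence of positive integers with
`∑ 1 / a_n ^ θ = ∞` and without `k` collinear points, for some `k`. Moreover,
for every `m ≥ 1` there is a strictly increasing sequence with
`a n ≤ 66 (log₂ (n + 1) + 1) ^ 3 (n + 1) ^ (1 + 1 / m)` such that every line contains at most
`6 m + 6` of the points `(n, a n)`.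

Idea.  On windows of length `2 ^ j` the increment at `x` is chosen from `M 2 ^ v` values, `v` the
2-adic valuation of `x + 1`; among any `d` consecutive `x` one has `2 ^ v > d / 2`, so a union bound
over all possible chains of `2 m + 3` collinear points gives a window without such chains. The
windows are glued with slopes increasing so fast that a line meets at most three windows.
-/

set_option autoImplicit false

namespace Pool.Agent.Results.MP_029ce3_co.NearLinearGrowth

/-- **Main result.** (1) Q1 fails for every exponent `θ < 1` in place of 1: a sequence with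
`∑ 1 / a_n ^ θ = ∞` (the sum over `n ≥ 1`) and fewer than `k` points on every line, for some `k`;
(2) growth exponent `1 + 1 / m`, up to a power of the logarithm, with at most `6 m + 6` points on a
line; (3) growth exponent `3 / 2` with at most 12 points on a line. -/
theorem result :
    (∀ θ : ℝ, θ < 1 → ∃ (a : ℕ → ℕ) (k : ℕ), StrictMono a ∧ (∀ n, 1 ≤ n → 0 < a n) ∧
      ¬ Summable (fun n : ℕ => 1 / (a (n + 1) : ℝ) ^ θ) ∧
      ∀ σ τ : ℝ, ∀ T : Finset ℕ, (∀ n ∈ T, (a n : ℝ) = σ * n + τ) → T.card < k) ∧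
    (∀ m : ℕ, 1 ≤ m → ∃ a : ℕ → ℕ, StrictMono a ∧ (∀ n, 1 ≤ n → 0 < a n) ∧
      (∀ n, a n ^ m ≤ (66 * (Nat.log 2 (n + 1) + 1) ^ 3) ^ m * (n + 1) ^ (m + 1)) ∧
      ∀ σ τ : ℝ, ∀ T : Finset ℕ, (∀ n ∈ T, (a n : ℝ) = σ * n + τ) → T.card ≤ 6 * m + 6) ∧
    (∃ a : ℕ → ℕ, StrictMono a ∧ (∀ n, 1 ≤ n → 0 < a n) ∧ (∀ n, a n ^ 2 ≤ 16384 * n ^ 3) ∧
      ∀ σ τ : ℝ, ∀ T : Finset ℕ, (∀ n ∈ T, (a n : ℝ) = σ * n + τ) → T.card ≤ 12) := by
  refine ⟨Pool.Agent.H58Slow.below_one, ?_, Pool.Agent.H58Slow.ThreeHalves.three_halves⟩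
  intro m hm
  obtain ⟨a, h1, h2, _, h3⟩ := Pool.Agent.H58Slow.main m hm
  refine ⟨a, h1, ?_, h2, h3⟩
  intro n hn
  have := h1 (show 0 < n from hn)
  omega

end Pool.Agent.Results.MP_029ce3_co.NearLinearGrowth
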